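import Pool.Agent.Helper5.DR.Defs

/-!
# Project DR, block SER, part (i): the coefficients of the truncated exponential
-/

set_option autoImplicit false

namespace Pool.Agent.DR

open Finset MeasureTheory Filter Topology Pool.Agent.Helper5.RM Pool.Agent.Helper96.AF Pool.Agent.Helper66.LW Pool.Agent.IT

/-- multiplication with the logarithm -/
noncomputable def LD52 (f : ArithmeticFunction ℂ) : ArithmeticFunction ℂ := ⟨fun n => f n * (Real.log n : ℂ), by simp⟩

lemma LD_apply52 (f : ArithmeticFunction ℂ) (n : ℕ) : LD52 f n = f n * (Real.log n : ℂ) := rfl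

lemma LD_mul52 (f g : ArithmeticFunction ℂ) : LD52 (f * g) = LD52 f * g + f * LD52 g := by
  ext n
  rw [LD_apply52, ArithmeticFunction.add_apply, ArithmeticFunction.mul_apply, ArithmeticFunction.mul_apply,
    ArithmeticFunction.mul_apply, ← Finset.sum_add_distrib, Finset.sum_mul]
  refine Finset.sum_congr rfl fun x hx => ?_
  have h1 := Nat.mem_divisorsAntidiagonal.1 hx
  have h2 : x.1 ≠ 0 := by rintro h; rw [h, zero_mul] at h1; exact h1.2 h1.1.symm
  have h3 : x.2 ≠ 0 := by rintro h; rw [h, mul_zero] at h1; exact h1.2 h1.1.symm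
  rw [LD_apply52, LD_apply52, ← h1.1]
  push_cast
  rw [Real.log_mul (by exact_mod_cast h2) (by exact_mod_cast h3)]
  push_cast
  ring

lemma LD_one52 : LD52 1 = 0 := by
  ext n
  rw [LD_apply52, ArithmeticFunction.zero_apply]
  by_cases h : n = 1
  · subst h; simp
  · rw [ArithmeticFunction.one_apply_ne h, zero_mul]

lemma LD_pow52 (f : ArithmeticFunction ℂ) (k : ℕ) : LD52 (f ^ (k + 1)) = ((k + 1 : ℕ) : ArithmeticFunction ℂ) * (f ^ k * LD52 f) := by
  induction k with
  | zero => simp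
  | succ k ih =>
    rw [pow_succ, LD_mul52, ih]
    push_cast
    ring

lemma natCast_mul_apply52 (k : ℕ) (F : ArithmeticFunction ℂ) (n : ℕ) : ((k : ArithmeticFunction ℂ) * F) n = (k : ℂ) * F n := by
  induction k with
  | zero => simp
  | succ k ih =>
    push_cast
    rw [add_mul, ArithmeticFunction.add_apply, ih, one_mul]
    ring

/-- the coefficients of the truncated exponential -/
noncomputable def BB52 (f : ArithmeticFunction ℂ) (K n : ℕ) : ℂ := ∑ k ∈ Finset.range K, (f ^ k) n / (k.factorial : ℂ)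

lemma BB_rec52 (f : ArithmeticFunction ℂ) (K n : ℕ) : BB52 f (K + 1) n * (Real.log n : ℂ) =
    ∑ x ∈ n.divisorsAntidiagonal, BB52 f K x.1 * (f x.2 * (Real.log x.2 : ℂ)) := by
  unfold BB52
  rw [Finset.sum_range_succ', add_mul]
  have h0 : (f ^ 0) n / ((Nat.factorial 0 : ℕ) : ℂ) * (Real.log n : ℂ) = 0 := by
    rw [pow_zero, Nat.factorial_zero, Nat.cast_one, div_one, ← LD_apply52, LD_one52]
    rfl
  rw [h0, add_zero, Finset.sum_mul]
  have h1 : ∀ k : ℕ, (f ^ (k + 1)) n / (((k + 1).factorial : ℕ) : ℂ) * (Real.log n : ℂ) = (f ^ k * LD52 f) n / (k.factorial : ℂ) := by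
    intro k
    have h2 : (f ^ (k + 1)) n * (Real.log n : ℂ) = ((k + 1 : ℕ) : ℂ) * (f ^ k * LD52 f) n := by
      rw [← LD_apply52, LD_pow52, natCast_mul_apply52]
    rw [div_mul_eq_mul_div, h2, Nat.factorial_succ]
    push_cast
    have h3 : ((k : ℂ) + 1) ≠ 0 := by exact_mod_cast Nat.succ_ne_zero k
    have h4 : ((k.factorial : ℕ) : ℂ) ≠ 0 := by exact_mod_cast Nat.factorial_ne_zero k
    field_simp
  rw [Finset.sum_congr rfl fun k _ => h1 k]
  simp only [ArithmeticFunction.mul_apply, Finset.sum_div, Finset.sum_mul]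
  rw [Finset.sum_comm]
  refine Finset.sum_congr rfl fun x _ => Finset.sum_congr rfl fun k _ => ?_
  rw [LD_apply52]
  ring

lemma pow_at_one52 {f : ArithmeticFunction ℂ} (hf : f 1 = 0) (k : ℕ) : (f ^ (k + 1)) 1 = 0 := by
  rw [pow_succ, ArithmeticFunction.mul_apply]
  simp [hf]

lemma BB_one52 {f : ArithmeticFunction ℂ} (hf : f 1 = 0) (K : ℕ) : BB52 f (K + 1) 1 = 1 := by
  unfold BB52
  rw [Finset.sum_range_succ', Finset.sum_eq_zero fun k _ => by rw [pow_at_one52 hf, zero_div]]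
  simp

/-- the coefficients are bounded by one -/
lemma BB_le52 {f : ArithmeticFunction ℂ} (hf : f 1 = 0) (hL : ∀ n, ‖f n‖ * Real.log n ≤ ArithmeticFunction.vonMangoldt n) (n : ℕ) :
    ∀ K : ℕ, ‖BB52 f K n‖ ≤ 1 := by
  induction n using Nat.strong_induction_on with
  | _ n ih =>
    intro K
    rcases K with _ | K
    · simp [BB52]
    rcases Nat.lt_or_ge n 2 with hn | hn
    · interval_cases n
      · simp [BB52]
      · rw [BB_one52 hf]; simp
    have hlog : 0 < Real.log n := Real.log_pos (by exact_mod_cast hn)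
    have h1 : ‖BB52 f (K + 1) n‖ * Real.log n ≤ 1 * Real.log n := by
      calc ‖BB52 f (K + 1) n‖ * Real.log n = ‖BB52 f (K + 1) n * (Real.log n : ℂ)‖ := by
            rw [norm_mul, Complex.norm_real, Real.norm_of_nonneg hlog.le]
        _ = ‖∑ x ∈ n.divisorsAntidiagonal, BB52 f K x.1 * (f x.2 * (Real.log x.2 : ℂ))‖ := by rw [BB_rec52]
        _ ≤ ∑ x ∈ n.divisorsAntidiagonal, ArithmeticFunction.vonMangoldt x.2 := by
            refine (norm_sum_le _ _).trans (Finset.sum_le_sum fun x hx => ?_)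
            have hx1 := Nat.mem_divisorsAntidiagonal.1 hx
            rw [norm_mul, norm_mul, Complex.norm_real, Real.norm_of_nonneg (Real.log_natCast_nonneg _)]
            by_cases h2 : x.2 = 1
            · rw [h2]; simp
            · have h3 : x.2 ≠ 0 := by rintro h; rw [h, mul_zero] at hx1; exact hx1.2 hx1.1.symm
              have h4 : x.1 ≠ 0 := by rintro h; rw [h, zero_mul] at hx1; exact hx1.2 hx1.1.symm
              have h5 : x.1 < n := by
                rw [← hx1.1]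
                calc x.1 = x.1 * 1 := (mul_one _).symm
                  _ < x.1 * x.2 := Nat.mul_lt_mul_of_pos_left (by omega) (Nat.pos_of_ne_zero h4)
              calc ‖BB52 f K x.1‖ * (‖f x.2‖ * Real.log x.2) ≤ 1 * ArithmeticFunction.vonMangoldt x.2 :=
                    mul_le_mul (ih x.1 h5 K) (hL x.2) (mul_nonneg (norm_nonneg _) (Real.log_natCast_nonneg _)) zero_le_one
                _ = _ := one_mul _
        _ = 1 * Real.log n := by
            rw [one_mul, ← ArithmeticFunction.vonMangoldt_sum]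
            exact Nat.sum_divisorsAntidiagonal' (f := fun _ y => ArithmeticFunction.vonMangoldt y)
    exact le_of_mul_le_mul_right h1 hlog

/-- the coefficients are the given ones in the range -/
lemma BB_eq52 {a al : ℕ → ℂ} (hC : LogC a al) {f : ArithmeticFunction ℂ} {M : ℕ} (hf : ∀ n, n ≤ M → f n = al n) (n : ℕ) :
    ∀ K : ℕ, 1 ≤ n → n ≤ M → ArithmeticFunction.cardFactors n < K → BB52 f K n = a n := by
  induction n using Nat.strong_induction_on with
  | _ n ih =>
    intro K hn1 hnM hK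
    rcases K with _ | K
    · omega
    have hf1 : f 1 = 0 := by rw [hf 1 (by omega), hC.al1]
    rcases Nat.lt_or_ge n 2 with hn | hn
    · have : n = 1 := by omega
      subst this
      rw [BB_one52 hf1, hC.one]
    have hlog : 0 < Real.log n := Real.log_pos (by exact_mod_cast hn)
    have hlog' : (Real.log n : ℂ) ≠ 0 := by exact_mod_cast hlog.ne'
    refine mul_right_cancel₀ hlog' ?_
    rw [BB_rec52, hC.conv n hn1, ← Nat.sum_divisorsAntidiagonal' (f := fun x y => a x * (al y * (Real.log y : ℂ)))]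
    refine Finset.sum_congr rfl fun x hx => ?_
    have hx1 := Nat.mem_divisorsAntidiagonal.1 hx
    have h3 : x.2 ≠ 0 := by rintro h; rw [h, mul_zero] at hx1; exact hx1.2 hx1.1.symm
    have h4 : x.1 ≠ 0 := by rintro h; rw [h, zero_mul] at hx1; exact hx1.2 hx1.1.symm
    have h6 : x.2 ≤ M := (Nat.le_of_dvd (by omega) (Dvd.intro_left x.1 hx1.1)).trans hnM
    rw [hf x.2 h6]
    by_cases h2 : x.2 = 1
    · rw [h2, hC.al1]; simp
    · have h5 : x.1 < n := by
        rw [← hx1.1]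
        calc x.1 = x.1 * 1 := (mul_one _).symm
          _ < x.1 * x.2 := Nat.mul_lt_mul_of_pos_left (by omega) (Nat.pos_of_ne_zero h4)
      have h7 : ArithmeticFunction.cardFactors x.1 < K := by
        have h8 := ArithmeticFunction.cardFactors_mul h4 h3
        rw [hx1.1] at h8
        have h9 : 0 < ArithmeticFunction.cardFactors x.2 := by
          rw [ArithmeticFunction.cardFactors_apply, List.length_pos_iff_ne_nil]
          intro h10
          rw [Nat.primeFactorsList_eq_nil] at h10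
          omega
        omega
      rw [ih x.1 h5 K (Nat.pos_of_ne_zero h4) (h5.le.trans hnM) h7]

/-- products of Dirichlet polynomials -/
lemma sum_mul52 {u : ℕ → ℂ} (hu : ∀ m n, u (m * n) = u m * u n) (F G : ArithmeticFunction ℂ) (A C : ℕ) (hF : ∀ n, A < n → F n = 0)
    (hG : ∀ n, C < n → G n = 0) : (∑ n ∈ Finset.Icc 1 A, F n * u n) * (∑ n ∈ Finset.Icc 1 C, G n * u n) =
      ∑ n ∈ Finset.Icc 1 (A * C), (F * G) n * u n := by
  rw [Finset.sum_mul_sum, ← Finset.sum_product']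
  rw [← Finset.sum_fiberwise_of_maps_to (s := Finset.Icc 1 A ×ˢ Finset.Icc 1 C) (t := Finset.Icc 1 (A * C)) (g := fun x => x.1 * x.2)]
  · refine Finset.sum_congr rfl fun n hn => ?_
    rw [ArithmeticFunction.mul_apply, Finset.sum_mul]
    have hn1 := Finset.mem_Icc.1 hn
    have h1 : ∀ x ∈ (Finset.Icc 1 A ×ˢ Finset.Icc 1 C).filter (fun x => x.1 * x.2 = n), F x.1 * u x.1 * (G x.2 * u x.2) = F x.1 * G x.2 * u n := by
      intro x hx
      rw [← (Finset.mem_filter.1 hx).2, hu]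
      ring
    rw [Finset.sum_congr rfl h1]
    refine Finset.sum_subset ?_ ?_
    · intro x hx
      rw [Nat.mem_divisorsAntidiagonal]
      exact ⟨(Finset.mem_filter.1 hx).2, by omega⟩
    · intro x hx hx'
      have hx1 := Nat.mem_divisorsAntidiagonal.1 hx
      have h3 : x.2 ≠ 0 := by rintro h; rw [h, mul_zero] at hx1; exact hx1.2 hx1.1.symm
      have h4 : x.1 ≠ 0 := by rintro h; rw [h, zero_mul] at hx1; exact hx1.2 hx1.1.symm
      rcases Nat.lt_or_ge A x.1 with h5 | h5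
      · rw [hF _ h5]; simp
      rcases Nat.lt_or_ge C x.2 with h6 | h6
      · rw [hG _ h6]; simp
      exfalso
      apply hx'
      rw [Finset.mem_filter, Finset.mem_product, Finset.mem_Icc, Finset.mem_Icc]
      exact ⟨⟨⟨by omega, h5⟩, by omega, h6⟩, hx1.1⟩
  · intro x hx
    rw [Finset.mem_product, Finset.mem_Icc, Finset.mem_Icc] at hx
    rw [Finset.mem_Icc]
    exact ⟨Nat.mul_pos (by omega) (by omega), Nat.mul_le_mul hx.1.2 hx.2.2⟩

lemma supp_mul52 (F G : ArithmeticFunction ℂ) (A C : ℕ) (hF : ∀ n, A < n → F n = 0) (hG : ∀ n, C < n → G n = 0) :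
    ∀ n, A * C < n → (F * G) n = 0 := by
  intro n hn
  rw [ArithmeticFunction.mul_apply]
  refine Finset.sum_eq_zero fun x hx => ?_
  have hx1 := Nat.mem_divisorsAntidiagonal.1 hx
  rcases Nat.lt_or_ge A x.1 with h5 | h5
  · rw [hF _ h5]; simp
  rcases Nat.lt_or_ge C x.2 with h6 | h6
  · rw [hG _ h6]; simp
  exfalso
  have := Nat.mul_le_mul h5 h6
  omega

lemma supp_pow52 (f : ArithmeticFunction ℂ) (M : ℕ) (hf : ∀ n, M < n → f n = 0) (k : ℕ) :
    ∀ n, M ^ k < n → (f ^ k) n = 0 := by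
  induction k with
  | zero =>
    intro n hn
    rw [pow_zero] at hn
    rw [pow_zero, ArithmeticFunction.one_apply_ne (by omega)]
  | succ k ih => rw [pow_succ, pow_succ]; exact supp_mul52 _ _ _ _ ih hf

lemma sum_pow52 {u : ℕ → ℂ} (hu1 : u 1 = 1) (hu : ∀ m n, u (m * n) = u m * u n) (f : ArithmeticFunction ℂ) (M : ℕ)
    (hf : ∀ n, M < n → f n = 0) (k : ℕ) :
    (∑ n ∈ Finset.Icc 1 M, f n * u n) ^ k = ∑ n ∈ Finset.Icc 1 (M ^ k), (f ^ k) n * u n := by
  induction k with
  | zero => simp [hu1]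
  | succ k ih =>
    rw [pow_succ, ih, sum_mul52 hu _ _ _ _ (supp_pow52 f M hf k) hf, ← pow_succ, ← pow_succ]

lemma sum_exp52 {u : ℕ → ℂ} (hu1 : u 1 = 1) (hu : ∀ m n, u (m * n) = u m * u n) (f : ArithmeticFunction ℂ) (M : ℕ) (hM : 1 ≤ M)
    (hf : ∀ n, M < n → f n = 0) (K : ℕ) :
    ∑ k ∈ Finset.range (K + 1), (∑ n ∈ Finset.Icc 1 M, f n * u n) ^ k / (k.factorial : ℂ) =
      ∑ n ∈ Finset.Icc 1 (M ^ K), BB52 f (K + 1) n * u n := by
  unfold BB52
  simp only [Finset.sum_mul]
  rw [Finset.sum_comm]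
  refine Finset.sum_congr rfl fun k hk => ?_
  have hk1 : k ≤ K := by have := Finset.mem_range.1 hk; omega
  rw [sum_pow52 hu1 hu f M hf, Finset.sum_div]
  have h1 : Finset.Icc 1 (M ^ k) ⊆ Finset.Icc 1 (M ^ K) := Finset.Icc_subset_Icc le_rfl (Nat.pow_le_pow_right hM hk1)
  rw [← Finset.sum_subset h1]
  · refine Finset.sum_congr rfl fun n _ => ?_
    ring
  · intro n hn hn'
    have h2 : M ^ k < n := by
      rw [Finset.mem_Icc] at hn hn'
      omega
    rw [supp_pow52 f M hf k n h2]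
    simp

/-- block SER, part (i) -/
theorem serI {a al : ℕ → ℂ} (hC : LogC a al) (r : ℕ) : ∃ B : ℕ → ℂ, (∀ n, ‖B n‖ ≤ 1) ∧ (∀ n, 1 ≤ n → n ≤ Y (r + 1) → B n = a n) ∧
    ∀ g : ℕ → ℂ, g 1 = 1 → (∀ m n, g (m * n) = g m * g n) → ∀ τ : ℝ,
      TE r (PS r al g τ) = ∑ n ∈ Finset.Icc 1 (Y (2 * r + 2)), B n * (g n * (n : ℂ) ^ (-(((1 / 2 + sr r : ℝ) : ℂ) + Complex.I * (τ : ℂ)))) := by
  set M := Y (r + 1) with hMdef
  have hM : 1 ≤ M := Nat.one_le_two_pow
  let f : ArithmeticFunction ℂ := ⟨fun n => if n ≤ M then al n else 0, by simp [hC.al0]⟩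
  have hf : ∀ n, f n = if n ≤ M then al n else 0 := fun n => rfl
  have hf1 : ∀ n, n ≤ M → f n = al n := fun n hn => by rw [hf, if_pos hn]
  have hf2 : ∀ n, M < n → f n = 0 := fun n hn => by rw [hf, if_neg (by omega)]
  have hf3 : f 1 = 0 := by rw [hf1 1 hM, hC.al1]
  have hf4 : ∀ n, ‖f n‖ * Real.log n ≤ ArithmeticFunction.vonMangoldt n := by
    intro n
    rw [hf]
    split_ifs with h
    · exact hC.al_le n
    · rw [norm_zero, zero_mul]; exact ArithmeticFunction.vonMangoldt_nonneg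
  refine ⟨fun n => BB52 f (2 ^ (r + 1) + 1) n, fun n => BB_le52 hf3 hf4 n _, fun n hn1 hn2 => ?_, fun g hg1 hg τ => ?_⟩
  · refine BB_eq52 hC hf1 n _ hn1 hn2 ?_
    have h1 : 2 ^ ArithmeticFunction.cardFactors n ≤ n := by
      rw [ArithmeticFunction.cardFactors_apply]
      conv_rhs => rw [← Nat.prod_primeFactorsList (show n ≠ 0 by omega)]
      exact List.pow_card_le_prod _ _ fun p hp => (Nat.prime_of_mem_primeFactorsList hp).two_le
    have h2 : 2 ^ ArithmeticFunction.cardFactors n ≤ 2 ^ 2 ^ (r + 1) := h1.trans hn2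
    have h3 := (Nat.pow_le_pow_iff_right (by norm_num : 1 < 2)).1 h2
    omega
  · have hMK : M ^ 2 ^ (r + 1) = Y (2 * r + 2) := by
      rw [hMdef]
      unfold Y
      rw [← pow_mul, ← pow_add]
      congr 2
      ring
    unfold TE
    have h1 := sum_exp52 (u := fun n => g n * (n : ℂ) ^ (-(((1 / 2 + sr r : ℝ) : ℂ) + Complex.I * (τ : ℂ)))) (by simp [hg1])
      (fun m n => by
        rw [hg, Nat.cast_mul, Complex.natCast_mul_natCast_cpow]
        ring) f M hM hf2 (2 ^ (r + 1))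
    rw [hMK] at h1
    rw [← h1]
    refine Finset.sum_congr rfl fun k _ => ?_
    congr 2
    unfold PS
    refine Finset.sum_congr rfl fun n hn => ?_
    rw [hf1 n (Finset.mem_Icc.1 hn).2]
    ring

end Pool.Agent.DR

namespace Pool.Agent.Helper52.DR

open Pool.Agent.DR Pool.Agent.Helper96.AF Pool.Agent.Helper66.LW

/-- block SER, part (i) -/
theorem ser_i {a al : ℕ → ℂ} (hC : LogC a al) (r : ℕ) : ∃ B : ℕ → ℂ, (∀ n, ‖B n‖ ≤ 1) ∧ (∀ n, 1 ≤ n → n ≤ Y (r + 1) → B n = a n) ∧
    ∀ g : ℕ → ℂ, g 1 = 1 → (∀ m n, g (m * n) = g m * g n) → ∀ τ : ℝ,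
      TE r (PS r al g τ) = ∑ n ∈ Finset.Icc 1 (Y (2 * r + 2)), B n * (g n * (n : ℂ) ^ (-(((1 / 2 + sr r : ℝ) : ℂ) + Complex.I * (τ : ℂ)))) :=
  serI hC r

end Pool.Agent.Helper52.DR
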