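import Pool.Agent.Helper5.DR.Defs
import Pool.Agent.Helper66.LW.Z

/-!
# Project DR, block BD: a bound for the sums gives a bound for the smoothed sums
-/

set_option autoImplicit false

namespace Pool.Agent.DR

open Finset MeasureTheory Filter Topology Pool.Agent.Helper5.RM Pool.Agent.Helper96.AF Pool.Agent.Helper66.LW Pool.Agent.IT

lemma int_Av52 (K : Ker) (r : ℕ) (h : ℕ → ℝ) (u : ℝ) {c : ℝ} (hc : 0 ≤ c) :
    IntervalIntegrable (fun v => Av h (v - c) * kf K r u v) volume (Vr r) (2 * Vr r) := by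
  have hV := Vr_pos r
  have h1 : IntervalIntegrable (fun v => Av h (v - c)) volume (Vr r) (2 * Vr r) := by
    rw [intervalIntegrable_iff]
    refine Measure.integrableOn_of_bounded (M := Real.exp (c / 2) * ∑ m ∈ Finset.Icc 1 (Y (r + 1)), |h m|) ?_ ?_ ?_
    · rw [Set.uIoc_of_le (by linarith)]
      exact measure_Ioc_lt_top.ne
    · exact ((measurable_Av h).comp (measurable_id.sub_const c)).aestronglyMeasurable
    · refine (ae_restrict_iff' measurableSet_uIoc).2 (Filter.Eventually.of_forall fun v hv => ?_)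
      rw [Set.uIoc_of_le (by linarith)] at hv
      have hfl : ⌊Real.exp (v - c)⌋₊ ≤ Y (r + 1) := by
        apply Nat.floor_le_of_le
        rw [← exp_two_Vr]
        exact Real.exp_le_exp.2 (by linarith [hv.2])
      unfold Av Hs
      rw [Real.norm_eq_abs, abs_mul, abs_of_pos (Real.exp_pos _)]
      refine mul_le_mul (Real.exp_le_exp.2 (by linarith [hv.1])) ?_ (abs_nonneg _) (Real.exp_pos _).le
      exact (Finset.abs_sum_le_sum_abs _ _).trans
        (Finset.sum_le_sum_of_subset_of_nonneg (Finset.Icc_subset_Icc le_rfl hfl) fun _ _ _ => abs_nonneg _)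
  exact h1.mul_continuousOn (continuous_kf K r u).continuousOn

lemma int_Av0_52 (K : Ker) (r : ℕ) (h : ℕ → ℝ) (u : ℝ) :
    IntervalIntegrable (fun v => Av h v * kf K r u v) volume (Vr r) (2 * Vr r) := by
  simpa using int_Av52 K r h u le_rfl

lemma Hc_re52 (h : ℕ → ℂ) (n : ℕ) : (Hc h n).re = Hs (fun n => (h n).re) n := by
  unfold Hc Hs
  rw [Complex.re_sum]

lemma Hc_im52 (h : ℕ → ℂ) (n : ℕ) : (Hc h n).im = Hs (fun n => (h n).im) n := by
  unfold Hc Hs
  rw [Complex.im_sum]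

lemma Ac_eq52 (h : ℕ → ℂ) (v : ℝ) : Ac h v = (Av (fun n => (h n).re) v : ℂ) + (Av (fun n => (h n).im) v : ℂ) * Complex.I := by
  unfold Ac Av
  rw [← Hc_re52, ← Hc_im52]
  push_cast
  conv_lhs => rw [← Complex.re_add_im (Hc h ⌊Real.exp v⌋₊)]
  ring

lemma int_ofReal52 {F : ℝ → ℝ} {a b : ℝ} (h : IntervalIntegrable F volume a b) :
    IntervalIntegrable (fun v => (F v : ℂ)) volume a b := ⟨h.1.ofReal, h.2.ofReal⟩

/-- the smoothed sums in terms of real and imaginary parts -/
lemma SS_eq52 (K : Ker) (r : ℕ) (f : ℕ → ℂ) (i : ℕ) :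
    SS K r f i = (RC K r (fun n => (f n).re) (Ur r + i) : ℂ) + (RC K r (fun n => (f n).im) (Ur r + i) : ℂ) * Complex.I := by
  unfold SS RC
  rw [← intervalIntegral.integral_ofReal, ← intervalIntegral.integral_ofReal, ← intervalIntegral.integral_mul_const,
    ← intervalIntegral.integral_add]
  · refine intervalIntegral.integral_congr fun v _ => ?_
    show Ac f v * (kf K r (Ur r + i) v : ℂ) = _
    rw [Ac_eq52]
    push_cast
    ring
  · exact int_ofReal52 (int_Av0_52 K r _ _)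
  · exact (int_ofReal52 (int_Av0_52 K r _ _)).mul_const _

lemma SS_re52 (K : Ker) (r : ℕ) (f : ℕ → ℂ) (i : ℕ) : (SS K r f i).re = RC K r (fun n => (f n).re) (Ur r + i) := by
  rw [SS_eq52]
  simp

private theorem arct52 (u a b : ℝ) : ∫ v in a..b, 1 / (1 + (u - v) ^ 2) ≤ Real.pi := by
  rw [intervalIntegral.integral_comp_sub_left (fun x => 1 / (1 + x ^ 2)) u, integral_one_div_one_add_sq]
  have h1 := Real.arctan_lt_pi_div_two (u - a)
  have h2 := Real.neg_pi_div_two_lt_arctan (u - b)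
  linarith

/-- real version -/
theorem RC_le52 (K : Ker) : ∃ C : ℝ, 0 < C ∧ ∃ r0 : ℕ, ∀ r : ℕ, r0 ≤ r → ∀ (h : ℕ → ℝ) (lam : ℝ), 0 ≤ lam →
    (∀ n ∈ Finset.Icc (Y r) (Y (r + 1)), Hs h n ≤ lam * Real.sqrt n) →
    ∀ α : ℝ, 0 ≤ α → α ≤ 1 / sr r → RC K r h (Ur r + α) ≤ C * lam := by
  obtain ⟨C, hC, r0, hk⟩ := kf_le K
  refine ⟨C * Real.pi, by positivity, r0, fun r hr h lam hlam hF α hα0 hα1 => ?_⟩
  set u := Ur r + α with hu
  have hV := Vr_pos r
  have hle : Vr r ≤ 2 * Vr r := by linarith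
  have h0 := int_Av0_52 K r h u
  have hac : Continuous fun v : ℝ => 1 / (1 + (u - v) ^ 2) := by
    refine Continuous.div continuous_const (by fun_prop) fun v => ?_
    positivity
  have hp1 : ∀ v ∈ Set.Icc (Vr r) (2 * Vr r), Av h v * kf K r u v ≤ lam * C * (1 / (1 + (u - v) ^ 2)) := by
    intro v hv
    have h1 := hF _ (floor_mem hv.1 hv.2)
    have h2 : Real.sqrt (⌊Real.exp v⌋₊ : ℝ) ≤ Real.exp (v / 2) := by
      rw [Real.exp_half]
      exact Real.sqrt_le_sqrt (Nat.floor_le (Real.exp_pos v).le)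
    have h3 : Av h v ≤ lam := by
      unfold Av
      calc Real.exp (-(v / 2)) * Hs h ⌊Real.exp v⌋₊ ≤ Real.exp (-(v / 2)) * (lam * Real.exp (v / 2)) := by
            refine mul_le_mul_of_nonneg_left (h1.trans ?_) (Real.exp_pos _).le
            exact mul_le_mul_of_nonneg_left h2 hlam
        _ = lam := by
            rw [mul_left_comm, ← Real.exp_add]
            simp
    have h4 := hk r hr u (by linarith) (by linarith) v hv.1 hv.2
    calc _ ≤ lam * kf K r u v :=
          mul_le_mul_of_nonneg_right h3 (kf_nonneg K r u v)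
      _ ≤ lam * (C / (1 + (u - v) ^ 2)) := mul_le_mul_of_nonneg_left h4 hlam
      _ = lam * C * (1 / (1 + (u - v) ^ 2)) := by ring
  unfold RC
  calc _ ≤ ∫ v in (Vr r)..(2 * Vr r), lam * C * (1 / (1 + (u - v) ^ 2)) :=
        intervalIntegral.integral_mono_on hle h0 ((hac.intervalIntegrable _ _).const_mul _) hp1
    _ = lam * C * ∫ v in (Vr r)..(2 * Vr r), 1 / (1 + (u - v) ^ 2) := by
        rw [intervalIntegral.integral_const_mul]
    _ ≤ lam * C * Real.pi := mul_le_mul_of_nonneg_left (arct52 _ _ _) (by positivity)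
    _ = C * Real.pi * lam := by ring

/-- block BD -/
theorem bD : StmtBD := by
  intro K
  obtain ⟨C, hC, r0, hk⟩ := RC_le52 K
  refine ⟨C, hC, r0, fun r hr f lam hlam hF i hi => ?_⟩
  rw [SS_re52]
  refine hk r hr (fun n => (f n).re) lam hlam (fun n hn => ?_) i (Nat.cast_nonneg i) hi
  rw [← Hc_re52]
  have h1 := Finset.mem_Icc.1 hn
  exact hF n (le_trans Nat.one_le_two_pow h1.1) h1.2

end Pool.Agent.DR
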