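import Pool.Agent.Helper52.DR.BD
import Pool.Agent.Helper56.IT.Stmts
import Pool.Agent.Helper66.LW.LF
import Pool.Agent.Helper66.LW.LG
import Pool.Agent.Helper11.DR.Bia

/-!
# Project DR, block GSR: the real models at the level of the smoothed sums
-/

set_option autoImplicit false

namespace Pool.Agent.DR

open Finset MeasureTheory Filter Topology Pool.Agent.Helper5.RM Pool.Agent.Helper96.AF Pool.Agent.Helper96.AG Pool.Agent.Helper66.LW Pool.Agent.IT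

private theorem ev_rpow_small52r (a c : ℝ) (ha : a < 0) (hc : 0 < c) : ∃ r0 : ℕ, ∀ r : ℕ, r0 ≤ r → (r : ℝ) ^ a ≤ c := by
  have h := (tendsto_rpow_neg_atTop (show 0 < -a by linarith)).comp tendsto_natCast_atTop_atTop
  have h2 := h.eventually_le_const hc
  obtain ⟨r0, h0⟩ := Filter.eventually_atTop.1 h2
  refine ⟨r0, fun r hr => ?_⟩
  have := h0 r hr
  simpa using this

private theorem ev_log_small52r (a c : ℝ) (ha : 0 < a) (hc : 0 < c) : ∃ r0 : ℕ, ∀ r : ℕ, r0 ≤ r → Real.log r ≤ c * (r : ℝ) ^ a := by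
  have h := (isLittleO_log_rpow_atTop ha).tendsto_div_nhds_zero.comp tendsto_natCast_atTop_atTop
  have h2 := h.eventually_le_const hc
  obtain ⟨r0, h0⟩ := Filter.eventually_atTop.1 h2
  refine ⟨max r0 1, fun r hr => ?_⟩
  have h3 := h0 r ((le_max_left _ _).trans hr)
  have hr1 : (0 : ℝ) < r := by exact_mod_cast (show 0 < r from lt_of_lt_of_le one_pos ((le_max_right _ _).trans hr))
  simp only [Function.comp_apply] at h3
  rwa [div_le_iff₀ (Real.rpow_pos_of_pos hr1 _)] at h3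

private theorem ev_exp52r (c : ℝ) (hc : 0 < c) : ∃ r0 : ℕ, ∀ r : ℕ, r0 ≤ r → 2 * Real.exp (-(c * (r : ℝ) ^ (1 / 4 : ℝ))) ≤ 1 / (r : ℝ) ^ 2 := by
  obtain ⟨r1, h1⟩ := ev_log_small52r (1 / 4) (c / 3) (by norm_num) (by positivity)
  refine ⟨max r1 2, fun r hr => ?_⟩
  have h2 := h1 r ((le_max_left _ _).trans hr)
  have hr2 : (2 : ℝ) ≤ r := by exact_mod_cast (le_max_right _ _).trans hr
  have hr0 : (0 : ℝ) < r := by linarith
  have h3 : Real.exp (-(c * (r : ℝ) ^ (1 / 4 : ℝ))) ≤ Real.exp (-(3 * Real.log r)) := by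
    apply Real.exp_le_exp.2
    linarith
  have h4 : Real.exp (-(3 * Real.log r)) = 1 / (r : ℝ) ^ 3 := by
    rw [Real.exp_neg, show (3 : ℝ) * Real.log r = ((3 : ℕ) : ℝ) * Real.log r by norm_num, ← Real.log_pow, Real.exp_log (by positivity), one_div]
  rw [h4] at h3
  calc 2 * Real.exp (-(c * (r : ℝ) ^ (1 / 4 : ℝ))) ≤ 2 * (1 / (r : ℝ) ^ 3) := by linarith
    _ = 2 / r * (1 / (r : ℝ) ^ 2) := by field_simp
    _ ≤ 1 * (1 / (r : ℝ) ^ 2) := by
        apply mul_le_mul_of_nonneg_right _ (by positivity)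
        rw [div_le_one hr0]
        exact hr2
    _ = 1 / (r : ℝ) ^ 2 := one_mul _

private theorem ev_card52r : ∃ r0 : ℕ, ∀ r : ℕ, r0 ≤ r → ∀ n : ℕ, 2 ^ (r / 8) ≤ 2 * n → 16 ≤ n ∧ (r : ℝ) / 16 ≤ Real.log n := by
  refine ⟨200, fun r hr n hn => ?_⟩
  have h1 : 5 ≤ r / 8 := by omega
  have h2 : 2 ^ (r / 8 - 1) ≤ n := by
    have h3 : 2 ^ (r / 8) = 2 * 2 ^ (r / 8 - 1) := by
      rw [← pow_succ', Nat.sub_add_cancel (by omega)]
    omega
  constructor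
  · calc 16 = 2 ^ 4 := by norm_num
      _ ≤ 2 ^ (r / 8 - 1) := Nat.pow_le_pow_right (by norm_num) (by omega)
      _ ≤ n := h2
  · have h4 : ((2 ^ (r / 8 - 1) : ℕ) : ℝ) ≤ n := by exact_mod_cast h2
    have h5 : Real.log ((2 ^ (r / 8 - 1) : ℕ) : ℝ) ≤ Real.log n := Real.log_le_log (by positivity) h4
    rw [Nat.cast_pow, Real.log_pow] at h5
    refine le_trans ?_ h5
    have h6 := Real.log_two_gt_d9
    have h7 : (r : ℝ) / 8 - 2 ≤ ((r / 8 - 1 : ℕ) : ℝ) := by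
      have h8 : r < 8 * (r / 8) + 8 := by omega
      have h9 : ((r / 8 - 1 : ℕ) : ℝ) = ((r / 8 : ℕ) : ℝ) - 1 := by
        rw [Nat.cast_sub (by omega)]
        norm_num
      rw [h9]
      have h10 : (r : ℝ) < 8 * ((r / 8 : ℕ) : ℝ) + 8 := by exact_mod_cast h8
      linarith
    have h11 : (200 : ℝ) ≤ r := by exact_mod_cast hr
    have h12 : ((2 : ℕ) : ℝ) = 2 := by norm_num
    rw [h12]
    nlinarith

/-- one scale, at the level of the smoothed sums -/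
theorem one_scaleR52 (K : Ker) (δ C5 : ℝ) (hδ : 0 < δ) (hδ2 : δ ≤ 1 / 16) (hC5 : 0 < C5) : ∃ r0 : ℕ, ∀ r : ℕ, r0 ≤ r →
    ∀ (h : ℕ → ℝ) (D : ℝ → ℂ), Adm r h D (2 ^ r * (r : ℝ) ^ (-(1 / 2) + δ)) →
    (∀ k : ℕ, 2 ^ (r / 4) ≤ k → k ≤ 2 ^ r →
      2 ^ r * (r : ℝ) ^ (-(1 / 2) - δ) ≤ ∫ t in (1 / 16 : ℝ)..(1 / 8), (1 - Real.cos (k * t)) * ‖D t‖ ^ 2) →
    pr (BL r) (fun T => ∀ i : ℕ, (i : ℝ) ≤ 1 / sr r → RC K r h (Ur r + i) + ∑ p ∈ BL r, sg T p * aC K r h (Ur r + i) p ≤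
      C5 * (r : ℝ) ^ (1 / 4 - δ)) ≤ 1 / (r : ℝ) ^ 2 := by
  obtain ⟨C1, hC1, r1, hsel⟩ := select K
  obtain ⟨C2, hC2, r2, hsq⟩ := a_sq K
  obtain ⟨c3, hc3, C3, hC3, r3, hdist⟩ := dist_low K
  obtain ⟨r4, hsmall⟩ := a_small K
  obtain ⟨m1, hm1, m2, hm2, hmax⟩ := maxlow
  obtain ⟨r6, hinv⟩ := inv_sr_le
  obtain ⟨r7, hcard⟩ := ev_card52r
  obtain ⟨r8, hE1⟩ := ev_rpow_small52r (-5 + 2 * δ) (c3 / (4 * C3)) (by linarith) (by positivity)
  obtain ⟨r9, hE2⟩ := pow_le_Vr 1 (c3 / 4) (by positivity) 1 le_rfl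
  obtain ⟨r10, hE6⟩ := ev_log_small52r (7 / 16) (1 / 80) (by norm_num) (by norm_num)
  obtain ⟨r11, hE4⟩ := ev_rpow_small52r (-(δ / 2)) (m1 * (Real.sqrt c3 / 8) / (2 * (C5 + Real.sqrt C1))) (by linarith) (by positivity)
  obtain ⟨r12, hE3⟩ := pow_le_Vr 2 (m1 * (Real.sqrt c3 / 2)) (by positivity) 2 (by norm_num)
  obtain ⟨r13, hE5⟩ := ev_exp52r (m2 * (Real.sqrt c3 / 8) / Real.sqrt (2 * C2)) (by positivity)
  refine ⟨r1 + r2 + r3 + r4 + r6 + r7 + r8 + r9 + r10 + r11 + r12 + r13 + 4, fun r hr h D hA hm => ?_⟩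
  have hr0 : 2 ≤ r := by omega
  have hx : (1 : ℝ) ≤ r := by exact_mod_cast (show 1 ≤ r by omega)
  have hx0 : (0 : ℝ) < r := by linarith
  have hV := Vr_pos r
  have hV2 := le_Vr r
  have hV3 := Vr_le r
  have h2r : (0 : ℝ) < 2 ^ r := by positivity
  have hV1 : 1 ≤ Vr r := by
    have : (2 : ℝ) ^ 1 ≤ 2 ^ r := pow_le_pow_right₀ (by norm_num) (by omega)
    linarith
  set B : ℝ := 2 ^ r * (r : ℝ) ^ (-(1 / 2) + δ) with hB
  have hB0 : 0 < B := by positivity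
  have hB4 : B ≤ 4 ^ r := by
    have h1 : (r : ℝ) ^ (-(1 / 2) + δ) ≤ 1 := Real.rpow_le_one_of_one_le_of_nonpos hx (by linarith)
    have h2 : (1 : ℝ) ≤ 2 ^ r := one_le_pow₀ (by norm_num)
    calc B ≤ 2 ^ r * 2 ^ r := by rw [hB]; gcongr; linarith
      _ = 4 ^ r := by rw [← mul_pow]; norm_num
  obtain ⟨Δ, τ, hΔ, J, hJ, hJc, hJp⟩ := hsel r (by omega) h D B hA
  obtain ⟨hc16, hclog⟩ := hcard r (by omega) J.card hJc
  have hs := sr_pos hr0
  -- the parameters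
  set d2 : ℝ := c3 / 4 * (r : ℝ) ^ (-(1 / 2) - δ) with hd2
  have hd20 : 0 < d2 := by positivity
  set v : ℝ := C2 * B / Vr r with hv
  have hv0 : 0 < v := by positivity
  have hDs : Real.sqrt d2 ^ 2 = d2 := Real.sq_sqrt hd20.le
  have hD0 : 0 < Real.sqrt d2 := Real.sqrt_pos.2 hd20
  have hDval : Real.sqrt d2 = Real.sqrt c3 / 2 * (r : ℝ) ^ (-(1 / 4) - δ / 2) := by
    rw [hd2, Real.sqrt_mul (by positivity), Real.sqrt_div hc3.le, show (4 : ℝ) = 2 ^ 2 by norm_num, Real.sqrt_sq (by norm_num),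
      Real.sqrt_eq_rpow ((r : ℝ) ^ _), ← Real.rpow_mul hx0.le]
    congr 2
    ring
  have hα : ∀ i ∈ J, (0 : ℝ) ≤ ((τ + i * Δ : ℕ) : ℝ) ∧ ((τ + i * Δ : ℕ) : ℝ) ≤ 1 / sr r := fun i hi =>
    ⟨Nat.cast_nonneg _, (hJp i hi).1⟩
  have hlogN : Real.log J.card ≤ r := by
    have h1 : (J.card : ℝ) ≤ 2 ^ (r / 8) := by
      have := Finset.card_le_card hJ
      rw [Finset.card_range] at this
      exact_mod_cast this
    have h2 : (0 : ℝ) < J.card := by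
      have : 0 < J.card := by omega
      exact_mod_cast this
    calc Real.log J.card ≤ Real.log (2 ^ (r / 8)) := Real.log_le_log h2 h1
      _ = (r / 8 : ℕ) * Real.log 2 := Real.log_pow _ _
      _ ≤ r * 1 := by
          apply mul_le_mul
          · exact_mod_cast Nat.div_le_self r 8
          · linarith [Real.log_two_lt_d9]
          · exact Real.log_nonneg (by norm_num)
          · exact hx0.le
      _ = r := mul_one _
  -- separation
  have hsep : ∀ i ∈ J, ∀ j ∈ J, i ≠ j → Real.sqrt d2 ^ 2 ≤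
      ∑ p ∈ BL r, (aC K r h (Ur r + (τ + i * Δ : ℕ)) p - aC K r h (Ur r + (τ + j * Δ : ℕ)) p) ^ 2 := by
    intro i hi j hj hij
    rw [hDs]
    have h1 := hdist r (by omega) h D B hA hB4 _ _ (hα i hi).1 (hα i hi).2 (hα j hj).1 (hα j hj).2
    refine le_trans ?_ h1
    -- the integer k
    have hk : ∃ k : ℕ, 2 ^ (r / 4) ≤ k ∧ k ≤ 2 ^ r ∧ ∀ t : ℝ,
        Real.cos ((((τ + i * Δ : ℕ) : ℝ) - ((τ + j * Δ : ℕ) : ℝ)) * t) = Real.cos (k * t) := by
      have hup : ∀ i ∈ J, τ + i * Δ ≤ 2 ^ r := by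
        intro i hi
        have h2 := (hα i hi).2
        have h3 := hinv r (by omega)
        have h4 : ((τ + i * Δ : ℕ) : ℝ) ≤ ((2 ^ r : ℕ) : ℝ) := by
          push_cast at h2 ⊢
          linarith
        exact_mod_cast h4
      have hpow : 2 ^ (r / 4) ≤ 2 ^ (r / 2) := Nat.pow_le_pow_right (by norm_num) (by omega)
      rcases lt_or_gt_of_ne hij with hlt | hlt
      · refine ⟨(j - i) * Δ, ?_, ?_, fun t => ?_⟩
        · calc 2 ^ (r / 4) ≤ Δ := hpow.trans hΔ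
            _ = 1 * Δ := (one_mul _).symm
            _ ≤ (j - i) * Δ := Nat.mul_le_mul_right _ (by omega)
        · have := hup j hj
          have h5 : (j - i) * Δ ≤ j * Δ := Nat.mul_le_mul_right _ (by omega)
          omega
        · rw [← Real.cos_neg]
          congr 1
          rw [Nat.cast_mul, Nat.cast_sub hlt.le]
          push_cast
          ring
      · refine ⟨(i - j) * Δ, ?_, ?_, fun t => ?_⟩
        · calc 2 ^ (r / 4) ≤ Δ := hpow.trans hΔ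
            _ = 1 * Δ := (one_mul _).symm
            _ ≤ (i - j) * Δ := Nat.mul_le_mul_right _ (by omega)
        · have := hup i hi
          have h5 : (i - j) * Δ ≤ i * Δ := Nat.mul_le_mul_right _ (by omega)
          omega
        · congr 1
          rw [Nat.cast_mul, Nat.cast_sub hlt.le]
          push_cast
          ring
    obtain ⟨k, hk1, hk2, hk3⟩ := hk
    have h2 := hm k hk1 hk2
    simp only [hk3]
    have h3 : C3 * (r : ℝ) ^ (-5 : ℝ) * B ≤ c3 / 4 * (2 ^ r * (r : ℝ) ^ (-(1 / 2) - δ)) := by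
      have h4 := hE1 r (by omega)
      have h5 : (r : ℝ) ^ (-5 : ℝ) * (r : ℝ) ^ (-(1 / 2) + δ) = (r : ℝ) ^ (-5 + 2 * δ) * (r : ℝ) ^ (-(1 / 2) - δ) := by
        rw [← Real.rpow_add hx0, ← Real.rpow_add hx0]
        congr 1
        ring
      calc C3 * (r : ℝ) ^ (-5 : ℝ) * B = C3 * 2 ^ r * ((r : ℝ) ^ (-5 : ℝ) * (r : ℝ) ^ (-(1 / 2) + δ)) := by rw [hB]; ring
        _ = C3 * 2 ^ r * ((r : ℝ) ^ (-5 + 2 * δ) * (r : ℝ) ^ (-(1 / 2) - δ)) := by rw [h5]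
        _ ≤ C3 * 2 ^ r * (c3 / (4 * C3) * (r : ℝ) ^ (-(1 / 2) - δ)) := by gcongr
        _ = c3 / 4 * (2 ^ r * (r : ℝ) ^ (-(1 / 2) - δ)) := by field_simp
    have h4 : c3 * (2 ^ r * (r : ℝ) ^ (-(1 / 2) - δ)) - C3 * (r : ℝ) ^ (-5 : ℝ) * B ≤
        c3 * (∫ t in (1 / 16 : ℝ)..(1 / 8), (1 - Real.cos (k * t)) * ‖D t‖ ^ 2) - C3 * (r : ℝ) ^ (-5 : ℝ) * B := by
      have := mul_le_mul_of_nonneg_left h2 hc3.le
      linarith
    have h5 : 3 / 4 * c3 * (2 ^ r * (r : ℝ) ^ (-(1 / 2) - δ)) ≤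
        c3 * (∫ t in (1 / 16 : ℝ)..(1 / 8), (1 - Real.cos (k * t)) * ‖D t‖ ^ 2) - C3 * (r : ℝ) ^ (-5 : ℝ) * B := by linarith
    have h6 : 3 / 4 * c3 * (r : ℝ) ^ (-(1 / 2) - δ) ≤
        (c3 * (∫ t in (1 / 16 : ℝ)..(1 / 8), (1 - Real.cos (k * t)) * ‖D t‖ ^ 2) - C3 * (r : ℝ) ^ (-5 : ℝ) * B) / Vr r := by
      rw [le_div_iff₀ hV]
      refine le_trans ?_ h5
      calc 3 / 4 * c3 * (r : ℝ) ^ (-(1 / 2) - δ) * Vr r ≤ 3 / 4 * c3 * (r : ℝ) ^ (-(1 / 2) - δ) * 2 ^ r := by gcongr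
        _ = 3 / 4 * c3 * (2 ^ r * (r : ℝ) ^ (-(1 / 2) - δ)) := by ring
    have h7 : 1 / Vr r ^ 2 ≤ c3 / 4 * (r : ℝ) ^ (-(1 / 2) - δ) := by
      have h8 := hE2 r (by omega)
      rw [pow_one, pow_one] at h8
      have h9 : (r : ℝ) ^ (-1 : ℝ) ≤ (r : ℝ) ^ (-(1 / 2) - δ) := Real.rpow_le_rpow_of_exponent_le hx (by linarith)
      rw [Real.rpow_neg_one] at h9
      calc 1 / Vr r ^ 2 ≤ 1 / Vr r := one_div_le_one_div_of_le hV (by nlinarith)
        _ ≤ c3 / 4 * (r : ℝ)⁻¹ := by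
            rw [div_le_iff₀ hV]
            field_simp
            linarith
        _ ≤ _ := by gcongr
    rw [hd2]
    have h8 : 0 ≤ c3 * (r : ℝ) ^ (-(1 / 2) - δ) := by positivity
    linarith
  have hvar : ∀ i ∈ J, ∑ p ∈ BL r, aC K r h (Ur r + (τ + i * Δ : ℕ)) p ^ 2 ≤ v := fun i hi =>
    hsq r (by omega) h D B hA _ (hα i hi).1 (hα i hi).2
  have hsm : ∀ i ∈ J, ∀ p ∈ BL r, |aC K r h (Ur r + (τ + i * Δ : ℕ)) p| * Real.sqrt (Real.log J.card) ≤ m1 * Real.sqrt d2 := by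
    intro i hi p hp
    have h1 := hsmall r (by omega) h hA.le_one _ (hα i hi).1 (hα i hi).2 p hp
    have h2 : Real.sqrt (Real.log J.card) ≤ r := by
      calc Real.sqrt (Real.log J.card) ≤ Real.sqrt r := Real.sqrt_le_sqrt hlogN
        _ ≤ r := by
            rw [Real.sqrt_le_left hx0.le]
            nlinarith
    have h3 := hE3 r (by omega)
    have h9 : (r : ℝ) ^ (-1 : ℝ) ≤ (r : ℝ) ^ (-(1 / 4) - δ / 2) := Real.rpow_le_rpow_of_exponent_le hx (by linarith)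
    rw [Real.rpow_neg_one] at h9
    rw [hDval]
    calc |aC K r h (Ur r + (τ + i * Δ : ℕ)) p| * Real.sqrt (Real.log J.card) ≤ 1 / Vr r ^ 2 * r :=
          mul_le_mul h1 h2 (Real.sqrt_nonneg _) (by positivity)
      _ ≤ m1 * (Real.sqrt c3 / 2 * (r : ℝ)⁻¹) := by
          rw [div_mul_eq_mul_div, one_mul, div_le_iff₀ (by positivity)]
          have h11 : (r : ℝ) ^ 2 ≤ m1 * (Real.sqrt c3 / 2) * Vr r ^ 2 := h3
          calc (r : ℝ) = (r : ℝ) ^ 2 * (r : ℝ)⁻¹ := by field_simp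
            _ ≤ m1 * (Real.sqrt c3 / 2) * Vr r ^ 2 * (r : ℝ)⁻¹ := by gcongr
            _ = _ := by ring
      _ ≤ _ := by gcongr
  have hfin := hmax (BL r) J (fun i p => aC K r h (Ur r + (τ + i * Δ : ℕ)) p) (Real.sqrt d2) v hD0 hv0 hc16 hsep hvar hsm
  refine le_trans (pr_mono ?_) (hfin.trans ?_)
  · intro T hT hbad i hi
    have h1 := hbad (τ + i * Δ) (hα i hi).2
    have h2 := (hJp i hi).2
    have h3 : |RC K r h (Ur r + (τ + i * Δ : ℕ))| ≤ Real.sqrt C1 := by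
      rw [← Real.sqrt_sq_eq_abs]
      apply Real.sqrt_le_sqrt
      refine h2.trans ?_
      have h4 : sr r * B ≤ 1 := by
        have h5 := hE6 r (by omega)
        unfold sr
        rw [div_mul_eq_mul_div, div_le_one hV]
        have h6 : (r : ℝ) ^ (7 / 16 : ℝ) * (r : ℝ) ^ (-(1 / 2) + δ) ≤ 1 := by
          rw [← Real.rpow_add hx0]
          exact Real.rpow_le_one_of_one_le_of_nonpos hx (by linarith)
        have h7 : 0 ≤ (r : ℝ) ^ (-(1 / 2) + δ) := by positivity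
        calc 40 * Real.log r * B = 40 * 2 ^ r * (Real.log r * (r : ℝ) ^ (-(1 / 2) + δ)) := by rw [hB]; ring
          _ ≤ 40 * 2 ^ r * (1 / 80 * (r : ℝ) ^ (7 / 16 : ℝ) * (r : ℝ) ^ (-(1 / 2) + δ)) := by gcongr
          _ = 2 ^ r / 2 * ((r : ℝ) ^ (7 / 16 : ℝ) * (r : ℝ) ^ (-(1 / 2) + δ)) := by ring
          _ ≤ 2 ^ r / 2 * 1 := by gcongr
          _ ≤ Vr r := by linarith
      calc C1 * sr r * B = C1 * (sr r * B) := by ring
        _ ≤ C1 * 1 := by gcongr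
        _ = C1 := mul_one _
    have h4 : -Real.sqrt C1 ≤ RC K r h (Ur r + (τ + i * Δ : ℕ)) := (abs_le.1 h3).1
    have h5 : C5 * (r : ℝ) ^ (1 / 4 - δ) + Real.sqrt C1 ≤ m1 * Real.sqrt d2 * Real.sqrt (Real.log J.card) := by
      have h6 : Real.sqrt r / 4 ≤ Real.sqrt (Real.log J.card) := by
        have : Real.sqrt r / 4 = Real.sqrt (r / 16) := by
          rw [Real.sqrt_div hx0.le, show (16 : ℝ) = 4 ^ 2 by norm_num, Real.sqrt_sq (by norm_num)]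
        rw [this]
        exact Real.sqrt_le_sqrt hclog
      have h7 : (r : ℝ) ^ (-(1 / 4) - δ / 2) * Real.sqrt r = (r : ℝ) ^ (1 / 4 - δ / 2) := by
        rw [Real.sqrt_eq_rpow, ← Real.rpow_add hx0]
        congr 1
        ring
      have h8 : m1 * (Real.sqrt c3 / 8) * (r : ℝ) ^ (1 / 4 - δ / 2) ≤ m1 * Real.sqrt d2 * Real.sqrt (Real.log J.card) := by
        rw [← h7, hDval]
        calc m1 * (Real.sqrt c3 / 8) * ((r : ℝ) ^ (-(1 / 4) - δ / 2) * Real.sqrt r) =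
              m1 * (Real.sqrt c3 / 2 * (r : ℝ) ^ (-(1 / 4) - δ / 2)) * (Real.sqrt r / 4) := by ring
          _ ≤ _ := by gcongr
      refine le_trans ?_ h8
      have h9 := hE4 r (by omega)
      have h10 : (r : ℝ) ^ (1 / 4 - δ) = (r : ℝ) ^ (-(δ / 2)) * (r : ℝ) ^ (1 / 4 - δ / 2) := by
        rw [← Real.rpow_add hx0]
        congr 1
        ring
      have h11 : 1 ≤ (r : ℝ) ^ (1 / 4 - δ) := Real.one_le_rpow hx (by linarith)
      calc C5 * (r : ℝ) ^ (1 / 4 - δ) + Real.sqrt C1 ≤ (C5 + Real.sqrt C1) * (r : ℝ) ^ (1 / 4 - δ) := by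
            have := mul_le_mul_of_nonneg_left h11 (Real.sqrt_nonneg C1)
            nlinarith
        _ = (C5 + Real.sqrt C1) * (r : ℝ) ^ (-(δ / 2)) * (r : ℝ) ^ (1 / 4 - δ / 2) := by rw [h10]; ring
        _ ≤ (C5 + Real.sqrt C1) * (m1 * (Real.sqrt c3 / 8) / (2 * (C5 + Real.sqrt C1))) * (r : ℝ) ^ (1 / 4 - δ / 2) := by gcongr
        _ = m1 * (Real.sqrt c3 / 8) / 2 * (r : ℝ) ^ (1 / 4 - δ / 2) := by
            have : C5 + Real.sqrt C1 ≠ 0 := by positivity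
            field_simp
        _ ≤ m1 * (Real.sqrt c3 / 8) * (r : ℝ) ^ (1 / 4 - δ / 2) := by
            have : 0 ≤ m1 * (Real.sqrt c3 / 8) * (r : ℝ) ^ (1 / 4 - δ / 2) := by positivity
            linarith
    linarith
  · -- the exponent
    refine le_trans ?_ (hE5 r (by omega))
    apply mul_le_mul_of_nonneg_left _ (by norm_num)
    apply Real.exp_le_exp.2
    apply neg_le_neg
    have h6 : Real.sqrt r / 4 ≤ Real.sqrt (Real.log J.card) := by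
      have : Real.sqrt r / 4 = Real.sqrt (r / 16) := by
        rw [Real.sqrt_div hx0.le, show (16 : ℝ) = 4 ^ 2 by norm_num, Real.sqrt_sq (by norm_num)]
      rw [this]
      exact Real.sqrt_le_sqrt hclog
    have h7 : v ≤ 2 * C2 * (r : ℝ) ^ (-(1 / 2) + δ) := by
      rw [hv, div_le_iff₀ hV, hB]
      calc C2 * (2 ^ r * (r : ℝ) ^ (-(1 / 2) + δ)) = 2 * C2 * (r : ℝ) ^ (-(1 / 2) + δ) * (2 ^ r / 2) := by ring
        _ ≤ 2 * C2 * (r : ℝ) ^ (-(1 / 2) + δ) * Vr r := by gcongr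
    have h8 : Real.sqrt v ≤ Real.sqrt (2 * C2) * (r : ℝ) ^ (-(1 / 4) + δ / 2) := by
      refine (Real.sqrt_le_sqrt h7).trans (le_of_eq ?_)
      rw [Real.sqrt_mul (by positivity), Real.sqrt_eq_rpow ((r : ℝ) ^ _), ← Real.rpow_mul hx0.le]
      congr 2
      ring
    rw [le_div_iff₀ (Real.sqrt_pos.2 hv0), hDval]
    have h9 : (r : ℝ) ^ (1 / 4 : ℝ) * (r : ℝ) ^ (-(1 / 4) + δ / 2) ≤ (r : ℝ) ^ (-(1 / 4) - δ / 2) * Real.sqrt r := by
      rw [Real.sqrt_eq_rpow, ← Real.rpow_add hx0, ← Real.rpow_add hx0]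
      exact Real.rpow_le_rpow_of_exponent_le hx (by linarith)
    have h10 : 0 < Real.sqrt (2 * C2) := Real.sqrt_pos.2 (by positivity)
    calc m2 * (Real.sqrt c3 / 8) / Real.sqrt (2 * C2) * (r : ℝ) ^ (1 / 4 : ℝ) * Real.sqrt v
        ≤ m2 * (Real.sqrt c3 / 8) / Real.sqrt (2 * C2) * (r : ℝ) ^ (1 / 4 : ℝ) * (Real.sqrt (2 * C2) * (r : ℝ) ^ (-(1 / 4) + δ / 2)) := by gcongr
      _ = m2 * (Real.sqrt c3 / 8) * ((r : ℝ) ^ (1 / 4 : ℝ) * (r : ℝ) ^ (-(1 / 4) + δ / 2)) := by field_simp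
      _ ≤ m2 * (Real.sqrt c3 / 8) * ((r : ℝ) ^ (-(1 / 4) - δ / 2) * Real.sqrt r) := by gcongr
      _ = m2 * (Real.sqrt c3 / 2 * (r : ℝ) ^ (-(1 / 4) - δ / 2)) * (Real.sqrt r / 4) := by ring
      _ ≤ m2 * (Real.sqrt c3 / 2 * (r : ℝ) ^ (-(1 / 4) - δ / 2)) * Real.sqrt (Real.log J.card) := by gcongr

/-! ### the smoothed sums in terms of the smooth part -/

private theorem shift52r (h : ℕ → ℝ) {p : ℕ} (hp : 0 < p) (v : ℝ) :
    (Real.sqrt p)⁻¹ * Av h (v - Real.log p) = Real.exp (-(v / 2)) * Hs h (⌊Real.exp v⌋₊ / p) := by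
  have hp0 : (0 : ℝ) < p := by exact_mod_cast hp
  unfold Av
  have e1 : Real.exp (v - Real.log p) = Real.exp v / p := by rw [Real.exp_sub, Real.exp_log hp0]
  rw [e1, Nat.floor_div_natCast]
  have e2 : Real.exp (-((v - Real.log p) / 2)) = Real.exp (-(v / 2)) * Real.sqrt p := by
    rw [show -((v - Real.log p) / 2) = -(v / 2) + Real.log p / 2 by ring, Real.exp_add, Real.exp_half,
      Real.exp_log hp0]
  rw [e2]
  have := Real.sqrt_pos.2 hp0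
  field_simp

private theorem sum52r (K : Ker) (r : ℕ) (h s : ℕ → ℝ) (u : ℝ) :
    IntervalIntegrable (fun v => (Real.exp (-(v / 2)) * ∑ p ∈ BL r, s p * Hs h (⌊Real.exp v⌋₊ / p)) * kf K r u v)
      volume (Vr r) (2 * Vr r) ∧
    ∑ p ∈ BL r, s p * aC K r h u p = ∫ v in (Vr r)..(2 * Vr r),
      (Real.exp (-(v / 2)) * ∑ p ∈ BL r, s p * Hs h (⌊Real.exp v⌋₊ / p)) * kf K r u v := by
  have hlog : ∀ p : ℕ, 0 ≤ Real.log p := fun p => Real.log_natCast_nonneg p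
  have hpos : ∀ p ∈ BL r, 0 < p := fun p hp => ((mem_BL.1 hp).1).pos
  have hS : IntervalIntegrable (fun v => ∑ p ∈ BL r, s p * ((Real.sqrt p)⁻¹ * (Av h (v - Real.log p) * kf K r u v)))
      volume (Vr r) (2 * Vr r) := by
    have h1 := IntervalIntegrable.sum (μ := volume) (a := Vr r) (b := 2 * Vr r) (BL r)
      (f := fun p v => s p * ((Real.sqrt p)⁻¹ * (Av h (v - Real.log p) * kf K r u v)))
      (fun p _ => ((int_Av52 K r h u (hlog p)).const_mul _).const_mul _)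
    have h2 : (fun v => ∑ p ∈ BL r, s p * ((Real.sqrt p)⁻¹ * (Av h (v - Real.log p) * kf K r u v))) =
        ∑ p ∈ BL r, fun v => s p * ((Real.sqrt p)⁻¹ * (Av h (v - Real.log p) * kf K r u v)) := by
      funext v
      rw [Finset.sum_apply]
    rw [h2]
    exact h1
  have heq : ∀ v, ∑ p ∈ BL r, s p * ((Real.sqrt p)⁻¹ * (Av h (v - Real.log p) * kf K r u v)) =
      (Real.exp (-(v / 2)) * ∑ p ∈ BL r, s p * Hs h (⌊Real.exp v⌋₊ / p)) * kf K r u v := by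
    intro v
    rw [Finset.mul_sum, Finset.sum_mul]
    refine Finset.sum_congr rfl fun p hp => ?_
    have h1 := shift52r h (hpos p hp) v
    calc s p * ((Real.sqrt p)⁻¹ * (Av h (v - Real.log p) * kf K r u v)) =
        s p * ((Real.sqrt p)⁻¹ * Av h (v - Real.log p)) * kf K r u v := by ring
      _ = _ := by rw [h1]; ring
  constructor
  · rw [← funext heq]
    exact hS
  · have e2 : ∑ p ∈ BL r, s p * aC K r h u p = ∫ v in (Vr r)..(2 * Vr r),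
        ∑ p ∈ BL r, s p * ((Real.sqrt p)⁻¹ * (Av h (v - Real.log p) * kf K r u v)) := by
      rw [intervalIntegral.integral_finsetSum]
      · refine Finset.sum_congr rfl fun p _ => ?_
        unfold aC
        rw [intervalIntegral.integral_const_mul, intervalIntegral.integral_const_mul]
      · intro p _
        exact ((int_Av52 K r h u (hlog p)).const_mul _).const_mul _
    rw [e2]
    exact intervalIntegral.integral_congr fun v _ => heq v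

/-- the smoothed sums of a function with the sums `Fs r h s` -/
theorem RC_Fs52 (K : Ker) (r : ℕ) (F h s : ℕ → ℝ) (u : ℝ) (hF : ∀ n : ℕ, n ≤ Y (r + 1) → Fs r h s n = Hs F n) :
    RC K r h u + ∑ p ∈ BL r, s p * aC K r h u p = RC K r F u := by
  have hV := Vr_pos r
  have hle : Vr r ≤ 2 * Vr r := by linarith
  obtain ⟨i1, e1⟩ := sum52r K r h s u
  have h0 := int_Av0_52 K r h u
  rw [e1]
  unfold RC
  rw [← intervalIntegral.integral_add h0 i1]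
  refine intervalIntegral.integral_congr fun v hv => ?_
  rw [Set.uIcc_of_le hle] at hv
  have h4 := floor_mem hv.1 hv.2
  have h5 := hF ⌊Real.exp v⌋₊ (Finset.mem_Icc.1 h4).2
  unfold Fs at h5
  show Av h v * kf K r u v + _ * kf K r u v = Av F v * kf K r u v
  unfold Av
  rw [← h5]
  ring

lemma RC_neg52 (K : Ker) (r : ℕ) (h : ℕ → ℝ) (u : ℝ) : RC K r (fun n => -h n) u = -RC K r h u := by
  unfold RC
  rw [← intervalIntegral.integral_neg]
  refine intervalIntegral.integral_congr fun v _ => ?_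
  show Av (fun n => -h n) v * kf K r u v = -(Av h v * kf K r u v)
  rw [Av_negf]
  ring

lemma Hs_neg52 (h : ℕ → ℝ) (n : ℕ) : Hs (fun m => -h m) n = -Hs h n := Hs_neg h n

/-- a real model at one scale -/
theorem gsr_gen52 (K : Ker) (δ C5 : ℝ) (hδ : 0 < δ) (hδ2 : δ ≤ 1 / 16) (hC5 : 0 < C5) (hh : ℕ → Finset ℕ → ℕ → ℝ)
    (DD : ℕ → Finset ℕ → ℝ → ℂ) (F : Finset ℕ → ℕ → ℝ)
    (hpred : ∀ (r : ℕ) (T T' : Finset ℕ), (∀ p ∈ PP (Y r), (p ∈ T ↔ p ∈ T')) → hh r T = hh r T')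
    (hF : ∀ (r : ℕ) (T : Finset ℕ) (n : ℕ), n ≤ Y (r + 1) → Fs r (hh r T) (sg T) n = Hs (F T) n)
    (G : ℕ → Finset ℕ → Prop)
    (hG1 : ∃ r0 : ℕ, ∀ r : ℕ, r0 ≤ r → ∀ T : Finset ℕ, G r T → Adm r (hh r T) (DD r T) (2 ^ r * (r : ℝ) ^ (-(1 / 2) + δ)))
    (hG2 : ∃ r0 : ℕ, ∀ r : ℕ, r0 ≤ r → ∀ T : Finset ℕ, G r T → ∀ k : ℕ, 2 ^ (r / 4) ≤ k → k ≤ 2 ^ r →
      2 ^ r * (r : ℝ) ^ (-(1 / 2) - δ) ≤ ∫ t in (1 / 16 : ℝ)..(1 / 8), (1 - Real.cos (k * t)) * ‖DD r T t‖ ^ 2)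
    (hG3 : ∀ η : ℝ, 0 < η → ∃ r0 : ℕ, ∀ r, r0 ≤ r → pr (PP (Y r)) (fun T => ¬ G r T) ≤ η) (η : ℝ) (hη : 0 < η) :
    ∃ r0 : ℕ, ∀ r : ℕ, r0 ≤ r → ∀ c : ℝ, (c = 1 ∨ c = -1) →
      pr (PP (Y (r + 1))) (fun T => ∀ i : ℕ, (i : ℝ) ≤ 1 / sr r → c * RC K r (F T) (Ur r + i) ≤ C5 * (r : ℝ) ^ (1 / 4 - δ)) ≤ η := by
  classical
  obtain ⟨r1, h1⟩ := hG1
  obtain ⟨r2, h2⟩ := hG2
  obtain ⟨r3, h3⟩ := one_scaleR52 K δ C5 hδ hδ2 hC5
  obtain ⟨r4, h4⟩ := hG3 (η / 2) (by positivity)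
  obtain ⟨r5, h5⟩ := exists_nat_gt (2 / η)
  refine ⟨r1 + r2 + r3 + r4 + r5 + 1, fun r hr c hc => ?_⟩
  have hr1 : (1 : ℝ) ≤ r := by exact_mod_cast (show 1 ≤ r by omega)
  have hsmall : 1 / (r : ℝ) ^ 2 ≤ η / 2 := by
    have e1 : (r5 : ℝ) ≤ r := by exact_mod_cast (show r5 ≤ r by omega)
    have e2 : 2 / η ≤ r := h5.le.trans e1
    have e3 : (r : ℝ) ≤ (r : ℝ) ^ 2 := by nlinarith
    rw [div_le_iff₀ hη] at e2
    rw [div_le_iff₀ (by positivity)]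
    nlinarith
  -- change of the sign set
  have hsplit : ∀ (T T' : Finset ℕ), T ⊆ PP (Y r) → T' ⊆ BL r → ∀ n : ℕ, n ≤ Y (r + 1) →
      Fs r (hh r T) (sg T') n = Hs (F (T ∪ T')) n := by
    intro T T' hT hT' n hn
    rw [← hF r (T ∪ T') n hn]
    have e1 : hh r (T ∪ T') = hh r T := by
      apply hpred
      intro p hp
      rw [Finset.mem_union]
      constructor
      · rintro (h | h)
        · exact h
        · exact absurd hp (Finset.disjoint_right.1 (BL_disj r) (hT' h))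
      · exact Or.inl
    rw [e1]
    unfold Fs
    congr 1
    refine Finset.sum_congr rfl fun p hp => ?_
    congr 1
    apply sg_congr
    rw [Finset.mem_union]
    constructor
    · exact Or.inr
    · rintro (h | h)
      · exact absurd (hT h) (Finset.disjoint_right.1 (BL_disj r) hp)
      · exact h
  have hgood : ∀ T ⊆ PP (Y r), G r T → pr (BL r) (fun T' => ∀ i : ℕ, (i : ℝ) ≤ 1 / sr r →
      c * RC K r (F (T ∪ T')) (Ur r + i) ≤ C5 * (r : ℝ) ^ (1 / 4 - δ)) ≤ 1 / (r : ℝ) ^ 2 := by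
    intro T hT hG
    have a1 := h1 r (by omega) T hG
    have a2 := h2 r (by omega) T hG
    rcases hc with rfl | rfl
    · refine le_trans (pr_mono fun T' hT' hp i hi => ?_) (h3 r (by omega) (hh r T) (DD r T) a1 a2)
      rw [RC_Fs52 K r (F (T ∪ T')) (hh r T) (sg T') _ (hsplit T T' hT hT')]
      have := hp i hi
      rwa [one_mul] at this
    · refine le_trans (pr_mono fun T' hT' hp i hi => ?_) (h3 r (by omega) (fun n => -hh r T n) (fun t => -DD r T t) a1.neg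
        fun k hk1 hk2 => ?_)
      · rw [RC_Fs52 K r (fun n => -F (T ∪ T') n) (fun n => -hh r T n) (sg T') _ fun n hn => by
          rw [Fs_neg, hsplit T T' hT hT' n hn, Hs_neg], RC_neg52]
        have := hp i hi
        linarith
      · simp only [norm_neg]
        exact a2 k hk1 hk2
  unfold pr
  rw [PP_Y_succ, av_union (BL_disj r)]
  have hstep : ∀ T ⊆ PP (Y r), av (BL r) (fun T' => if (∀ i : ℕ, (i : ℝ) ≤ 1 / sr r →
      c * RC K r (F (T ∪ T')) (Ur r + i) ≤ C5 * (r : ℝ) ^ (1 / 4 - δ)) then (1 : ℝ) else 0) ≤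
      (if ¬ G r T then (1 : ℝ) else 0) + 1 / (r : ℝ) ^ 2 := by
    intro T hT
    by_cases hG : G r T
    · rw [if_neg (not_not.2 hG), zero_add]
      refine le_trans (le_of_eq ?_) (hgood T hT hG)
      unfold pr
      exact av_congr fun T' _ => by congr
    · rw [if_pos hG]
      have e1 := pr_le_one (BL r) (fun T' => ∀ i : ℕ, (i : ℝ) ≤ 1 / sr r →
        c * RC K r (F (T ∪ T')) (Ur r + i) ≤ C5 * (r : ℝ) ^ (1 / 4 - δ))
      have e2 : av (BL r) (fun T' => if (∀ i : ℕ, (i : ℝ) ≤ 1 / sr r →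
        c * RC K r (F (T ∪ T')) (Ur r + i) ≤ C5 * (r : ℝ) ^ (1 / 4 - δ)) then (1 : ℝ) else 0) ≤ 1 := by
        refine le_trans (le_of_eq ?_) e1
        unfold pr
        exact av_congr fun T' _ => by congr
      have e3 : 0 ≤ 1 / (r : ℝ) ^ 2 := by positivity
      linarith
  refine le_trans (le_trans (le_of_eq ?_) (av_mono hstep)) ?_
  · exact av_congr fun T _ => av_congr fun T' _ => by congr
  · rw [av_add, av_const]
    have e1 : av (PP (Y r)) (fun T => if ¬ G r T then (1 : ℝ) else 0) ≤ η / 2 := by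
      refine le_trans (le_of_eq ?_) (h4 r (by omega))
      unfold pr
      exact av_congr fun T' _ => by congr
    linarith

/-! ### the good events -/

private theorem pr_res52 {S S' : Finset ℕ} (h : S' ⊆ S) (P : Finset ℕ → Prop) (hP : ∀ T, P T ↔ P (T ∩ S')) : pr S P = pr S' P := by
  classical
  unfold pr
  refine av_restrict h _ fun T => ?_
  simp only [← hP T]

private theorem ev_rpow52 (a η : ℝ) (ha : 0 < a) (hη : 0 < η) : ∃ r0 : ℕ, ∀ r : ℕ, r0 ≤ r → (r : ℝ) ^ (-a) ≤ η :=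
  ev_rpow_small52r (-a) η (by linarith) hη

private theorem ev_sq52 (η : ℝ) (hη : 0 < η) : ∃ r0 : ℕ, ∀ r : ℕ, r0 ≤ r → 1 / (r : ℝ) ^ 2 ≤ η := by
  obtain ⟨r5, h5⟩ := exists_nat_gt (1 / η)
  refine ⟨r5 + 1, fun r hr => ?_⟩
  have hr1 : (1 : ℝ) ≤ r := by exact_mod_cast (show 1 ≤ r by omega)
  have e1 : (r5 : ℝ) ≤ r := by exact_mod_cast (show r5 ≤ r by omega)
  have e2 : 1 / η ≤ r := h5.le.trans e1
  have e3 : (r : ℝ) ≤ (r : ℝ) ^ 2 := by nlinarith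
  rw [div_le_iff₀ hη] at e2
  rw [div_le_iff₀ (by positivity)]
  nlinarith

private theorem gch52 (δ : ℝ) (hδ : 0 < δ) (η : ℝ) (hη : 0 < η) : ∃ r0 : ℕ, ∀ r : ℕ, r0 ≤ r → pr (PP (Y r)) (fun T => ¬ Gch δ r T) ≤ η := by
  obtain ⟨r1, h1⟩ := CM δ hδ
  obtain ⟨r2, h2⟩ := ev_sq52 η hη
  refine ⟨r1 + r2, fun r hr => le_trans (pr_mono fun T _ hT => ?_) ((h1 r (by omega)).trans (h2 r (by omega)))⟩
  unfold Gch at hT
  exact not_not.1 hT

private theorem di52 (δ : ℝ) (hδ : 0 < δ) (hδ2 : δ ≤ 1 / 2) (η : ℝ) (hη : 0 < η) : ∃ r0 : ℕ, ∀ r : ℕ, r0 ≤ r →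
    pr (PP (Y r)) (fun T => ¬ DI r T ≤ 2 * (r : ℝ) ^ (-(1 / 2) + δ)) ≤ η := by
  obtain ⟨r1, h1⟩ := chaos δ hδ hδ2
  obtain ⟨r2, h2⟩ := ev_rpow52 (δ / 2) η (by positivity) hη
  refine ⟨r1 + r2, fun r hr => ?_⟩
  have hP : ∀ T : Finset ℕ, (¬ DI r T ≤ 2 * (r : ℝ) ^ (-(1 / 2) + δ)) ↔ (¬ DI r (T ∩ PP (Y r)) ≤ 2 * (r : ℝ) ^ (-(1 / 2) + δ)) := by
    intro T
    rw [DI_congr (T := T) (T' := T ∩ PP (Y r)) fun p hp => by rw [Finset.mem_inter]; tauto]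
  rw [← pr_res52 (PP_Y_mono (show r ≤ 2 * r by omega)) _ hP]
  refine le_trans (pr_mono fun T _ hT => ?_) ((h1 r (by omega)).trans (h2 r (by omega)))
  rw [not_le] at hT
  refine ⟨r, Finset.mem_Icc.2 ⟨le_rfl, by omega⟩, lt_of_le_of_lt ?_ hT⟩
  have : 0 ≤ (r : ℝ) ^ (-(1 / 2) + δ) := by positivity
  linarith

private theorem dg52 (δ : ℝ) (hδ : 0 < δ) (hδ2 : δ ≤ 1 / 2) (η : ℝ) (hη : 0 < η) : ∃ r0 : ℕ, ∀ r : ℕ, r0 ≤ r →
    pr (PP (Y r)) (fun T => ¬ DG (2 ^ r * r * 2) r T ≤ 2 * (r : ℝ) ^ (-(1 / 2) + δ)) ≤ η := by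
  obtain ⟨r1, h1⟩ := chaosG δ hδ hδ2 2 (by norm_num)
  obtain ⟨r2, h2⟩ := ev_rpow52 (δ / 32) η (by positivity) hη
  refine ⟨r1 + r2, fun r hr => ?_⟩
  have hP : ∀ T : Finset ℕ, (¬ DG (2 ^ r * r * 2) r T ≤ 2 * (r : ℝ) ^ (-(1 / 2) + δ)) ↔
      (¬ DG (2 ^ r * r * 2) r (T ∩ PP (Y r)) ≤ 2 * (r : ℝ) ^ (-(1 / 2) + δ)) := by
    intro T
    rw [DG_congr (T := T) (T' := T ∩ PP (Y r)) fun p hp hpY => by
      rw [Finset.mem_inter, mem_PP]
      tauto]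
  rw [← pr_res52 (PP_Y_mono (show r ≤ 2 * r by omega)) _ hP]
  refine le_trans (pr_mono fun T _ hT => ?_) ((h1 r (by omega)).trans (h2 r (by omega)))
  rw [not_le] at hT
  refine ⟨r, Finset.mem_Icc.2 ⟨le_rfl, by omega⟩, lt_of_le_of_lt ?_ (by push_cast; exact hT)⟩
  have : 0 ≤ (r : ℝ) ^ (-(1 / 2) + δ) := by positivity
  linarith

/-- the squarefree model at the level of the smoothed sums -/
theorem gsr_f52 (K : Ker) (δ η C0 : ℝ) (hδ : 0 < δ) (hη : 0 < η) (hC0 : 0 < C0) : ∃ r0 : ℕ, ∀ r : ℕ, r0 ≤ r → ∀ c : ℝ, (c = 1 ∨ c = -1) →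
    pr (PP (Y (r + 1))) (fun T => ∀ i : ℕ, (i : ℝ) ≤ 1 / sr r → c * RC K r (rf T) (Ur r + i) ≤ C0 * (r : ℝ) ^ (1 / 4 - δ)) ≤ η := by
  set d := min δ (1 / 16) with hd
  have hd0 : 0 < d := by positivity
  obtain ⟨r1, h1⟩ := adm_f d hd0
  obtain ⟨r2, h2⟩ := lower_Df d hd0
  obtain ⟨r3, h3⟩ := gsr_gen52 K d C0 hd0 (min_le_right _ _) hC0 hf Df (fun T => rf T) (fun r T T' h => hf_pred r T T' h)
    (fun r T n hn => Fs_hf r T n hn)
    (fun r T => DI r T ≤ 2 * (r : ℝ) ^ (-(1 / 2) + d / 2) ∧ Gch (d / 2) r T)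
    ⟨r1, fun r hr T hG => h1 r hr T hG.1⟩ ⟨r2, fun r hr T hG => h2 r hr T hG.2⟩ (fun e he => by
      obtain ⟨a, ha⟩ := di52 (d / 2) (by positivity) (by linarith [min_le_right δ (1 / 16)]) (e / 2) (by positivity)
      obtain ⟨b, hb⟩ := gch52 (d / 2) (by positivity) (e / 2) (by positivity)
      refine ⟨a + b, fun r hr => ?_⟩
      refine (pr_le_add (Q := fun T => ¬ DI r T ≤ 2 * (r : ℝ) ^ (-(1 / 2) + d / 2)) (R := fun T => ¬ Gch (d / 2) r T) fun T _ hT => ?_).trans ?_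
      · exact not_and_or.1 hT
      · have := ha r (by omega)
        have := hb r (by omega)
        linarith) η hη
  refine ⟨r3 + 1, fun r hr c hc => ?_⟩
  have hr1 : (1 : ℝ) ≤ r := by exact_mod_cast (show 1 ≤ r by omega)
  refine (pr_mono fun T _ hT i hi => ?_).trans (h3 r (by omega) c hc)
  refine (hT i hi).trans ?_
  apply mul_le_mul_of_nonneg_left _ hC0.le
  exact Real.rpow_le_rpow_of_exponent_le hr1 (by linarith [min_le_left δ (1 / 16)])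

/-- the completely multiplicative model at the level of the smoothed sums -/
theorem gsr_g52 (K : Ker) (δ η C0 : ℝ) (hδ : 0 < δ) (hη : 0 < η) (hC0 : 0 < C0) : ∃ r0 : ℕ, ∀ r : ℕ, r0 ≤ r → ∀ c : ℝ, (c = 1 ∨ c = -1) →
    pr (PP (Y (r + 1))) (fun T => ∀ i : ℕ, (i : ℝ) ≤ 1 / sr r → c * RC K r (gf T) (Ur r + i) ≤ C0 * (r : ℝ) ^ (1 / 4 - δ)) ≤ η := by
  set d := min δ (1 / 16) with hd
  have hd0 : 0 < d := by positivity
  obtain ⟨r1, h1⟩ := adm_g d hd0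
  obtain ⟨r2, h2⟩ := lower_Dg d hd0
  obtain ⟨r4, h4⟩ := far_g
  obtain ⟨r3, h3⟩ := gsr_gen52 K d C0 hd0 (min_le_right _ _) hC0 hg Dg (fun T => gf T) (fun r T T' h => hg_pred r T T' h)
    (fun r T n hn => Fs_hg r T n hn)
    (fun r T => DG (2 ^ r * r * 2) r T ≤ 2 * (r : ℝ) ^ (-(1 / 2) + d / 2) ∧ farg r T ≤ 1 ∧ Gch (d / 4) r T)
    ⟨r1, fun r hr T hG => h1 r hr T hG.1 hG.2.1⟩ ⟨r2, fun r hr T hG => h2 r hr T hG.2.2⟩ (fun e he => by
      obtain ⟨a, ha⟩ := dg52 (d / 2) (by positivity) (by linarith [min_le_right δ (1 / 16)]) (e / 3) (by positivity)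
      obtain ⟨b, hb⟩ := gch52 (d / 4) (by positivity) (e / 3) (by positivity)
      obtain ⟨b', hb'⟩ := ev_sq52 (e / 3) (by positivity)
      refine ⟨a + b + b' + r4, fun r hr => ?_⟩
      refine (pr_le_add (Q := fun T => ¬ DG (2 ^ r * r * 2) r T ≤ 2 * (r : ℝ) ^ (-(1 / 2) + d / 2))
        (R := fun T => 1 < farg r T ∨ ¬ Gch (d / 4) r T) fun T _ hT => ?_).trans ?_
      · rcases not_and_or.1 hT with h | h
        · exact Or.inl h
        · rcases not_and_or.1 h with h' | h'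
          · exact Or.inr (Or.inl (not_le.1 h'))
          · exact Or.inr (Or.inr h')
      · have e1 := ha r (by omega)
        have e2 := hb r (by omega)
        have e3 := (h4 r (by omega)).trans (hb' r (by omega))
        have e4 := pr_or (PP (Y r)) (fun T => 1 < farg r T) (fun T => ¬ Gch (d / 4) r T)
        linarith) η hη
  refine ⟨r3 + 1, fun r hr c hc => ?_⟩
  have hr1 : (1 : ℝ) ≤ r := by exact_mod_cast (show 1 ≤ r by omega)
  refine (pr_mono fun T _ hT i hi => ?_).trans (h3 r (by omega) c hc)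
  refine (hT i hi).trans ?_
  apply mul_le_mul_of_nonneg_left _ hC0.le
  exact Real.rpow_le_rpow_of_exponent_le hr1 (by linarith [min_le_left δ (1 / 16)])

/-! ### in terms of `SS` -/

lemma RC_congr52 (K : Ker) (r : ℕ) {F F' : ℕ → ℝ} (u : ℝ) (h : ∀ n : ℕ, 1 ≤ n → n ≤ Y (r + 1) → F n = F' n) : RC K r F u = RC K r F' u := by
  have hV := Vr_pos r
  have hle : Vr r ≤ 2 * Vr r := by linarith
  unfold RC
  refine intervalIntegral.integral_congr fun v hv => ?_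
  rw [Set.uIcc_of_le hle] at hv
  have h4 := Finset.mem_Icc.1 (floor_mem hv.1 hv.2)
  show Av F v * kf K r u v = Av F' v * kf K r u v
  unfold Av Hs
  rw [Finset.sum_congr rfl fun n hn => h n (Finset.mem_Icc.1 hn).1 ((Finset.mem_Icc.1 hn).2.trans h4.2)]

/-- the real models in terms of the smoothed sums -/
def StmtGSR (a : ℕ → ℂ) : Prop := ∀ (K : Ker) (δ η C0 : ℝ), 0 < δ → 0 < η → 0 < C0 → ∃ r0 : ℕ, ∀ r : ℕ, r0 ≤ r →
  ∀ c : ℂ, (c = 1 ∨ c = -1) → pr (PP (Y (r + 1))) (fun T => ∀ i : ℕ, (i : ℝ) ≤ 1 / sr r →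
    (c * SS K r (fun n => a n * Pool.Agent.Helper11.DR.chB T n) i).re ≤ C0 * (r : ℝ) ^ (1 / 4 - δ)) ≤ η

private theorem gsr_of52 {a : ℕ → ℂ} {F : Finset ℕ → ℕ → ℝ} (hF : ∀ (T : Finset ℕ) (n : ℕ), 1 ≤ n →
    (a n * Pool.Agent.Helper11.DR.chB T n).re = F T n)
    (h : ∀ (K : Ker) (δ η C0 : ℝ), 0 < δ → 0 < η → 0 < C0 → ∃ r0 : ℕ, ∀ r : ℕ, r0 ≤ r → ∀ c : ℝ, (c = 1 ∨ c = -1) →
    pr (PP (Y (r + 1))) (fun T => ∀ i : ℕ, (i : ℝ) ≤ 1 / sr r → c * RC K r (F T) (Ur r + i) ≤ C0 * (r : ℝ) ^ (1 / 4 - δ)) ≤ η) :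
    StmtGSR a := by
  intro K δ η C0 hδ hη hC0
  obtain ⟨r0, h0⟩ := h K δ η C0 hδ hη hC0
  have key : ∀ (r i : ℕ) (T : Finset ℕ), (SS K r (fun n => a n * Pool.Agent.Helper11.DR.chB T n) i).re = RC K r (F T) (Ur r + i) := by
    intro r i T
    rw [SS_re52]
    exact RC_congr52 K r _ fun n hn _ => hF T n hn
  refine ⟨r0, fun r hr c hc => ?_⟩
  rcases hc with rfl | rfl
  · refine (pr_mono fun T _ hT i hi => ?_).trans (h0 r hr 1 (Or.inl rfl))
    have := hT i hi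
    rw [one_mul, key] at this
    rwa [one_mul]
  · refine (pr_mono fun T _ hT i hi => ?_).trans (h0 r hr (-1) (Or.inr rfl))
    have := hT i hi
    rw [neg_one_mul, Complex.neg_re, key] at this
    rwa [neg_one_mul]

private theorem fact_one52 {n : ℕ} (hs : Squarefree n) {p : ℕ} (hp : p ∈ n.primeFactors) : n.factorization p = 1 := by
  have h1 := hs.natFactorization_le_one p
  have h2 : 0 < n.factorization p := (Nat.prime_of_mem_primeFactors hp).factorization_pos_of_dvd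
    (Nat.mem_primeFactors.1 hp).2.2 (Nat.dvd_of_mem_primeFactors hp)
  omega

/-- block GSR, squarefree model -/
theorem gSR_sq : StmtGSR (fun n => if Squarefree n then (1 : ℂ) else 0) := by
  refine gsr_of52 (F := fun T => rf T) (fun T n hn => ?_) gsr_f52
  have hn0 : n ≠ 0 := by omega
  show ((if Squarefree n then (1 : ℂ) else 0) * ((if n = 0 then 0 else ∏ p ∈ n.primeFactors, sg T p ^ n.factorization p : ℝ) : ℂ)).re =
    if Squarefree n then wal T n.primeFactors else 0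
  rw [if_neg hn0]
  by_cases h : Squarefree n
  · rw [if_pos h, if_pos h, one_mul, Complex.ofReal_re]
    unfold wal
    refine Finset.prod_congr rfl fun p hp => ?_
    rw [fact_one52 h hp, pow_one]
  · rw [if_neg h, if_neg h]
    simp

/-- block GSR, completely multiplicative model -/
theorem gSR_one : StmtGSR (fun _ => 1) := by
  refine gsr_of52 (F := fun T => gf T) (fun T n hn => ?_) gsr_g52
  unfold Pool.Agent.Helper11.DR.chB Pool.Agent.Helper11.Q3.gz gf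
  rw [if_neg (by omega), one_mul, Complex.ofReal_re]

end Pool.Agent.DR
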