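import Pool.Agent.Helper5.DR.Defs

/-!
# Project DR, block LOG: the logarithms of the Moebius and the Liouville function
-/

set_option autoImplicit false

namespace Pool.Agent.DR

open Finset MeasureTheory Filter Topology Pool.Agent.Helper5.RM Pool.Agent.Helper96.AF Pool.Agent.Helper66.LW Pool.Agent.IT

/-- the logarithm of the Moebius function -/
noncomputable def alM (n : ℕ) : ℂ := -((ArithmeticFunction.vonMangoldt n / Real.log n : ℝ) : ℂ)

/-- the logarithm of the Liouville function -/
noncomputable def alL (n : ℕ) : ℂ := lac n * ((ArithmeticFunction.vonMangoldt n / Real.log n : ℝ) : ℂ)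

lemma vm_div_log_mul52 (n : ℕ) : ArithmeticFunction.vonMangoldt n / Real.log n * Real.log n = ArithmeticFunction.vonMangoldt n := by
  by_cases h : Real.log n = 0
  · have h1 : ArithmeticFunction.vonMangoldt n = 0 := by
      rw [Real.log_eq_zero] at h
      rcases h with h | h | h
      · have : n = 0 := by exact_mod_cast h
        rw [this]; simp
      · have : n = 1 := by exact_mod_cast h
        rw [this]; simp
      · exfalso
        have : (0 : ℝ) ≤ n := Nat.cast_nonneg n
        linarith
    rw [h1, zero_div, zero_mul]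
  · exact div_mul_cancel₀ _ h

lemma alM_mul_log52 (n : ℕ) : alM n * (Real.log n : ℂ) = -((ArithmeticFunction.vonMangoldt n : ℝ) : ℂ) := by
  unfold alM
  rw [neg_mul, ← Complex.ofReal_mul, vm_div_log_mul52]

lemma alL_mul_log52 (n : ℕ) : alL n * (Real.log n : ℂ) = lac n * ((ArithmeticFunction.vonMangoldt n : ℝ) : ℂ) := by
  unfold alL
  rw [mul_assoc, ← Complex.ofReal_mul, vm_div_log_mul52]

lemma norm_lac_le52 (n : ℕ) : ‖lac n‖ ≤ 1 := by
  unfold lac
  split_ifs with h
  · simp
  · simp

lemma norm_vm52 (n : ℕ) : ‖((ArithmeticFunction.vonMangoldt n / Real.log n : ℝ) : ℂ)‖ * Real.log n =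
    ArithmeticFunction.vonMangoldt n := by
  have h1 : 0 ≤ ArithmeticFunction.vonMangoldt n / Real.log n :=
    div_nonneg ArithmeticFunction.vonMangoldt_nonneg (Real.log_natCast_nonneg n)
  rw [Complex.norm_real, Real.norm_eq_abs, abs_of_nonneg h1, vm_div_log_mul52]

/-- the Moebius function -/
theorem logC_M : LogC muc alM where
  one := by unfold muc; simp
  norm_le n := by
    unfold muc
    rw [Complex.norm_intCast]
    exact_mod_cast ArithmeticFunction.abs_moebius_le_one
  al0 := by unfold alM; simp
  al1 := by unfold alM; simp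
  al_le n := by
    unfold alM
    rw [norm_neg, norm_vm52]
  conv n hn := by
    have h1 : ∀ d : ℕ, muc (n / d) * (alM d * (Real.log d : ℂ)) =
        -((((ArithmeticFunction.moebius (n / d) : ℤ) : ℝ) * ArithmeticFunction.vonMangoldt d : ℝ) : ℂ) := by
      intro d
      rw [alM_mul_log52]
      unfold muc
      push_cast
      ring
    rw [Finset.sum_congr rfl fun d _ => h1 d, Finset.sum_neg_distrib, ← Complex.ofReal_sum]
    have h2 : muc n * (Real.log n : ℂ) = ((((ArithmeticFunction.moebius n : ℤ) : ℝ) * Real.log n : ℝ) : ℂ) := by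
      unfold muc
      push_cast
      rfl
    rw [h2, ← Complex.ofReal_neg]
    congr 1
    have h3 : ((ArithmeticFunction.moebius : ArithmeticFunction ℤ) : ArithmeticFunction ℝ) * ((ArithmeticFunction.zeta : ArithmeticFunction ℕ) : ArithmeticFunction ℝ) = 1 := by
      exact_mod_cast ArithmeticFunction.coe_moebius_mul_coe_zeta
    have h4 : (ArithmeticFunction.pmul ((ArithmeticFunction.moebius : ArithmeticFunction ℤ) : ArithmeticFunction ℝ) ArithmeticFunction.log) *
        ((ArithmeticFunction.zeta : ArithmeticFunction ℕ) : ArithmeticFunction ℝ) = -ArithmeticFunction.vonMangoldt := by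
      ext m
      rw [ArithmeticFunction.coe_mul_zeta_apply]
      have := ArithmeticFunction.sum_moebius_mul_log_eq (n := m)
      simpa [ArithmeticFunction.pmul_apply] using this
    have h5 : ArithmeticFunction.pmul ((ArithmeticFunction.moebius : ArithmeticFunction ℤ) : ArithmeticFunction ℝ) ArithmeticFunction.log =
        -(((ArithmeticFunction.moebius : ArithmeticFunction ℤ) : ArithmeticFunction ℝ) * ArithmeticFunction.vonMangoldt) := by
      calc ArithmeticFunction.pmul ((ArithmeticFunction.moebius : ArithmeticFunction ℤ) : ArithmeticFunction ℝ) ArithmeticFunction.log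
          = ArithmeticFunction.pmul ((ArithmeticFunction.moebius : ArithmeticFunction ℤ) : ArithmeticFunction ℝ) ArithmeticFunction.log *
            (((ArithmeticFunction.moebius : ArithmeticFunction ℤ) : ArithmeticFunction ℝ) * ((ArithmeticFunction.zeta : ArithmeticFunction ℕ) : ArithmeticFunction ℝ)) := by
            rw [h3, mul_one]
        _ = (ArithmeticFunction.pmul ((ArithmeticFunction.moebius : ArithmeticFunction ℤ) : ArithmeticFunction ℝ) ArithmeticFunction.log *
            ((ArithmeticFunction.zeta : ArithmeticFunction ℕ) : ArithmeticFunction ℝ)) * ((ArithmeticFunction.moebius : ArithmeticFunction ℤ) : ArithmeticFunction ℝ) := by ring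
        _ = _ := by rw [h4]; ring
    have h6 := congrArg (fun F : ArithmeticFunction ℝ => F n) h5
    have h7 : (-(((ArithmeticFunction.moebius : ArithmeticFunction ℤ) : ArithmeticFunction ℝ) * ArithmeticFunction.vonMangoldt)) n =
        -((((ArithmeticFunction.moebius : ArithmeticFunction ℤ) : ArithmeticFunction ℝ) * ArithmeticFunction.vonMangoldt) n) := rfl
    simp only [ArithmeticFunction.pmul_apply, ArithmeticFunction.log_apply] at h6
    rw [h7, ArithmeticFunction.mul_apply] at h6
    rw [← Nat.sum_divisorsAntidiagonal' (f := fun a b => ((ArithmeticFunction.moebius a : ℤ) : ℝ) * ArithmeticFunction.vonMangoldt b)]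
    simpa using h6

/-- the Liouville function -/
theorem logC_L : LogC lac alL where
  one := by unfold lac; simp
  norm_le := norm_lac_le52
  al0 := by unfold alL; simp
  al1 := by unfold alL; simp
  al_le n := by
    unfold alL
    rw [norm_mul, mul_assoc, norm_vm52]
    exact mul_le_of_le_one_left ArithmeticFunction.vonMangoldt_nonneg (norm_lac_le52 n)
  conv n hn := by
    have h1 : ∀ d ∈ n.divisors, lac (n / d) * (alL d * (Real.log d : ℂ)) = lac n * ((ArithmeticFunction.vonMangoldt d : ℝ) : ℂ) := by
      intro d hd
      have hdn := Nat.dvd_of_mem_divisors hd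
      have hd0 : d ≠ 0 := (Nat.pos_of_mem_divisors hd).ne'
      have hnd : n / d ≠ 0 := (Nat.div_pos (Nat.le_of_dvd hn hdn) (Nat.pos_of_ne_zero hd0)).ne'
      rw [alL_mul_log52, ← mul_assoc]
      congr 1
      unfold lac
      rw [if_neg hd0, if_neg hnd, if_neg (by omega), ← pow_add, ← ArithmeticFunction.cardFactors_mul hnd hd0, Nat.div_mul_cancel hdn]
    rw [Finset.sum_congr rfl h1, ← Finset.mul_sum, ← Complex.ofReal_sum, ArithmeticFunction.vonMangoldt_sum]

end Pool.Agent.DR
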