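import Pool.Agent.Helper5.DR.Defs
import Pool.Agent.Helper66.LW.W

/-!
# Project DR: Lipschitz bound for the functionals `PH`
-/

set_option autoImplicit false

namespace Pool.Agent.DR

open Finset MeasureTheory Filter Topology Pool.Agent.Helper5.RM Pool.Agent.Helper96.AF Pool.Agent.Helper66.LW Pool.Agent.IT

lemma pow_lip52 {z z' : ℂ} {M : ℝ} (hz : ‖z‖ ≤ M) (hz' : ‖z'‖ ≤ M) (k : ℕ) : ‖z' ^ (k + 1) - z ^ (k + 1)‖ ≤ (k + 1) * M ^ k * ‖z' - z‖ := by
  have hM : 0 ≤ M := (norm_nonneg _).trans hz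
  induction k with
  | zero => simp
  | succ k ih =>
    have h1 : z' ^ (k + 1 + 1) - z ^ (k + 1 + 1) = z' * (z' ^ (k + 1) - z ^ (k + 1)) + (z' - z) * z ^ (k + 1) := by ring
    rw [h1]
    refine (norm_add_le _ _).trans ?_
    rw [norm_mul, norm_mul, norm_pow]
    have h2 : ‖z'‖ * ‖z' ^ (k + 1) - z ^ (k + 1)‖ ≤ M * ((k + 1) * M ^ k * ‖z' - z‖) := mul_le_mul hz' ih (norm_nonneg _) hM
    have h3 : ‖z' - z‖ * ‖z‖ ^ (k + 1) ≤ ‖z' - z‖ * M ^ (k + 1) :=
      mul_le_mul_of_nonneg_left (pow_le_pow_left₀ (norm_nonneg _) hz _) (norm_nonneg _)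
    refine (add_le_add h2 h3).trans (le_of_eq ?_)
    push_cast
    ring

lemma TE_lip52 (r : ℕ) {z z' : ℂ} {M : ℝ} (hz : ‖z‖ ≤ M) (hz' : ‖z'‖ ≤ M) : ‖TE r z' - TE r z‖ ≤ Real.exp M * ‖z' - z‖ := by
  have hM : 0 ≤ M := (norm_nonneg _).trans hz
  unfold TE
  rw [← Finset.sum_sub_distrib, Finset.sum_range_succ']
  simp only [pow_zero, sub_self, add_zero]
  refine (norm_sum_le _ _).trans ?_
  have h1 : ∀ k ∈ Finset.range (2 ^ (r + 1)), ‖z' ^ (k + 1) / (((k + 1).factorial : ℕ) : ℂ) - z ^ (k + 1) / (((k + 1).factorial : ℕ) : ℂ)‖ ≤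
      M ^ k / (k.factorial : ℝ) * ‖z' - z‖ := by
    intro k _
    rw [← sub_div, norm_div, Complex.norm_natCast, Nat.factorial_succ]
    push_cast
    have h2 := pow_lip52 hz hz' k
    have h3 : (0 : ℝ) < (k + 1 : ℝ) := by positivity
    have h4 : (0 : ℝ) < (k.factorial : ℝ) := by exact_mod_cast k.factorial_pos
    rw [div_le_iff₀ (by positivity)]
    refine h2.trans (le_of_eq ?_)
    field_simp
  refine (Finset.sum_le_sum h1).trans ?_
  rw [← Finset.sum_mul]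
  exact mul_le_mul_of_nonneg_right (Real.sum_le_exp_of_nonneg hM _) (norm_nonneg _)

/-- the coefficients of the functionals -/
lemma cij_le52 (K : Ker) : ∃ C : ℝ, 0 < C ∧ ∀ r : ℕ, 2 ≤ r → ∀ i j : ℕ, ‖cij K r i j‖ ≤ C * (r : ℝ) ^ 60 / NG r := by
  obtain ⟨C, hC⟩ : ∃ C : ℝ, ∀ t, K.ρ t ≤ C := by
    have hc : HasCompactSupport K.ρ := by
      refine HasCompactSupport.intro (isCompact_Icc (a := (-(1 / 4) : ℝ)) (b := 1 / 4)) fun t ht => K.ρ_supp t ?_
      rw [Set.mem_Icc, not_and_or, not_le, not_le] at ht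
      rcases ht with ht | ht
      · rw [abs_of_neg (by linarith)]; linarith
      · rw [abs_of_pos (by linarith)]; linarith
    obtain ⟨C, hC⟩ := hc.exists_bound_of_continuous K.ρ_smooth.continuous
    exact ⟨C, fun t => (le_abs_self _).trans (hC t)⟩
  refine ⟨|C| + 1, by positivity, fun r hr i j => ?_⟩
  have hr0 : (0 : ℝ) < r := by exact_mod_cast (show 0 < r by omega)
  have hV := Vr_pos r
  have hs := sr_pos hr
  have hN : (0 : ℝ) < NG r := by unfold NG; positivity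
  unfold cij
  rw [norm_div, norm_mul]
  have h1 : ‖Complex.exp (Complex.I * ((tj r j * (Ur r + i) : ℝ) : ℂ))‖ = 1 := by
    rw [mul_comm, Complex.norm_exp_ofReal_mul_I]
  have h2 : (1 / 2 : ℝ) ≤ ‖(((1 / 2 + sr r : ℝ) : ℂ) + Complex.I * (tj r j : ℂ))‖ := by
    refine le_trans ?_ (Complex.abs_re_le_norm _)
    simp only [Complex.add_re, Complex.ofReal_re, Complex.mul_re, Complex.I_re, Complex.I_im, Complex.ofReal_im, zero_mul, mul_zero, sub_zero, add_zero]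
    rw [abs_of_pos (by positivity)]
    linarith
  have h3 : Real.exp (sr r * Ur r) = (r : ℝ) ^ 60 := by
    have : sr r * Ur r = 60 * Real.log r := by
      unfold sr Ur
      field_simp
      ring
    rw [this, show (60 : ℝ) * Real.log r = Real.log r * ((60 : ℕ) : ℝ) by push_cast; ring, Real.exp_mul, Real.exp_log hr0, Real.rpow_natCast]
  have h4 : ‖((Real.exp (sr r * Ur r) * K.ρ (tj r j) / (2 * NG r) : ℝ) : ℂ)‖ ≤ (|C| + 1) * (r : ℝ) ^ 60 / (2 * NG r) := by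
    rw [Complex.norm_real, Real.norm_eq_abs, abs_of_nonneg (by have := K.ρ_nonneg (tj r j); positivity), h3]
    apply div_le_div_of_nonneg_right _ (by positivity)
    rw [mul_comm]
    apply mul_le_mul_of_nonneg_right _ (by positivity)
    linarith [hC (tj r j), le_abs_self C]
  rw [h1, mul_one]
  calc _ ≤ (|C| + 1) * (r : ℝ) ^ 60 / (2 * NG r) / (1 / 2) := div_le_div₀ (by positivity) h4 (by norm_num) h2
    _ = _ := by field_simp

/-- Lipschitz bound for the functionals -/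
theorem PH_lip52 (K : Ker) : ∃ C : ℝ, 0 < C ∧ ∀ r : ℕ, 2 ≤ r → ∀ (i : ℕ) (z z' : ℕ → ℂ) (M ε : ℝ),
    (∀ j, j < NG r → ‖z j‖ ≤ M) → (∀ j, j < NG r → ‖z' j‖ ≤ M) → (∀ j, j < NG r → ‖z' j - z j‖ ≤ ε) →
    ‖PH K r z' i - PH K r z i‖ ≤ C * (r : ℝ) ^ 60 * Real.exp M * ε := by
  obtain ⟨C, hC, hc⟩ := cij_le52 K
  refine ⟨C, hC, fun r hr i z z' M ε hz hz' hd => ?_⟩
  have hN : (0 : ℝ) < NG r := by unfold NG; positivity
  unfold PH
  rw [← Finset.sum_sub_distrib]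
  refine (norm_sum_le _ _).trans ?_
  have h1 : ∀ j ∈ Finset.range (NG r), ‖cij K r i j * TE r (z' j) - cij K r i j * TE r (z j)‖ ≤
      C * (r : ℝ) ^ 60 / NG r * (Real.exp M * ε) := by
    intro j hj
    have hj' := Finset.mem_range.1 hj
    rw [← mul_sub, norm_mul]
    have hε : 0 ≤ ε := (norm_nonneg _).trans (hd j hj')
    refine mul_le_mul (hc r hr i j) ?_ (norm_nonneg _) (by positivity)
    refine (TE_lip52 r (hz j hj') (hz' j hj')).trans ?_
    exact mul_le_mul_of_nonneg_left (hd j hj') (Real.exp_pos M).le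
  refine (Finset.sum_le_sum h1).trans (le_of_eq ?_)
  rw [Finset.sum_const, Finset.card_range, nsmul_eq_mul]
  field_simp

/-- the form used in the transfer -/
theorem PH_near52 (K : Ker) : ∃ r0 : ℕ, ∀ r : ℕ, r0 ≤ r → ∀ (i : ℕ) (z z' : ℕ → ℂ), (∀ j, j < NG r → ‖z j‖ ≤ 20 * (r : ℝ)) →
    (∀ j, j < NG r → ‖z' j - z j‖ ≤ 3 * Real.exp (-(21 * (r : ℝ)))) → ‖PH K r z' i - PH K r z i‖ ≤ 1 := by
  obtain ⟨C, hC, h0⟩ := PH_lip52 K
  have h1 : Tendsto (fun x : ℝ => x ^ 60 * Real.exp (-x)) atTop (𝓝 0) := Real.tendsto_pow_mul_exp_neg_atTop_nhds_zero 60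
  have h2 := (h1.comp tendsto_natCast_atTop_atTop).eventually_le_const (show 0 < 1 / (C * Real.exp 3 * 3) by positivity)
  obtain ⟨r1, hr1⟩ := Filter.eventually_atTop.1 h2
  refine ⟨max r1 2, fun r hr i z z' hz hd => ?_⟩
  have hr2 : 2 ≤ r := (le_max_right _ _).trans hr
  have h3 := hr1 r ((le_max_left _ _).trans hr)
  simp only [Function.comp_apply] at h3
  have he : Real.exp (-(21 * (r : ℝ))) ≤ 1 := by
    rw [Real.exp_le_one_iff]
    have : (0 : ℝ) ≤ r := Nat.cast_nonneg r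
    linarith
  have hz' : ∀ j, j < NG r → ‖z' j‖ ≤ 20 * (r : ℝ) + 3 := by
    intro j hj
    have e1 : z' j = z j + (z' j - z j) := by ring
    rw [e1]
    refine (norm_add_le _ _).trans ?_
    linarith [hz j hj, hd j hj]
  have h4 := h0 r hr2 i z z' (20 * r + 3) (3 * Real.exp (-(21 * (r : ℝ)))) (fun j hj => (hz j hj).trans (by linarith)) hz' hd
  refine h4.trans ?_
  have h5 : Real.exp (20 * (r : ℝ) + 3) * (3 * Real.exp (-(21 * (r : ℝ)))) = 3 * Real.exp 3 * Real.exp (-(r : ℝ)) := by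
    rw [show Real.exp (20 * (r : ℝ) + 3) * (3 * Real.exp (-(21 * (r : ℝ)))) = 3 * (Real.exp (20 * (r : ℝ) + 3) * Real.exp (-(21 * (r : ℝ)))) by ring,
      ← Real.exp_add, mul_assoc, ← Real.exp_add]
    congr 2
    ring
  calc C * (r : ℝ) ^ 60 * Real.exp (20 * (r : ℝ) + 3) * (3 * Real.exp (-(21 * (r : ℝ)))) =
        C * (r : ℝ) ^ 60 * (Real.exp (20 * (r : ℝ) + 3) * (3 * Real.exp (-(21 * (r : ℝ))))) := by ring
    _ = C * Real.exp 3 * 3 * ((r : ℝ) ^ 60 * Real.exp (-(r : ℝ))) := by rw [h5]; ring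
    _ ≤ C * Real.exp 3 * 3 * (1 / (C * Real.exp 3 * 3)) := by gcongr
    _ = 1 := by field_simp

end Pool.Agent.DR
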