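import Pool.Agent.Helper5.DR.Defs

/-!
# Project DR, block MOD: the model belongs to the coefficients
-/

set_option autoImplicit false

namespace Pool.Agent.DR

open Finset MeasureTheory Filter Topology Pool.Agent.Helper5.RM Pool.Agent.Helper96.AF Pool.Agent.Helper66.LW Pool.Agent.IT

lemma mul_prod52 {χ : ℕ → ℂ} (h1 : χ 1 = 1) (hm : ∀ m n, χ (m * n) = χ m * χ n) {n : ℕ} (hn : n ≠ 0) :
    χ n = ∏ p ∈ n.primeFactors, χ p ^ n.factorization p := by
  have h3 : ∀ (k m : ℕ), χ (m ^ k) = χ m ^ k := by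
    intro k m
    induction k with
    | zero => simp [h1]
    | succ k ih => rw [pow_succ, hm, ih, pow_succ]
  have h2 : ∀ (S : Finset ℕ) (g : ℕ → ℕ), χ (∏ p ∈ S, g p) = ∏ p ∈ S, χ (g p) := by
    intro S g
    classical
    induction S using Finset.induction_on with
    | empty => simp [h1]
    | insert q S hq ih => rw [Finset.prod_insert hq, hm, ih, Finset.prod_insert hq]
  conv_lhs => rw [← Nat.prod_factorization_pow_eq_self hn]
  rw [Finsupp.prod, Nat.support_factorization, h2]
  exact Finset.prod_congr rfl fun p _ => h3 _ _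

/-- the base point of a completely multiplicative function -/
noncomputable def phb52 (χ : ℕ → ℂ) (p : ℕ) : ℝ := Complex.arg (-χ p)

lemma exp_phb52 {χ : ℕ → ℂ} {p : ℕ} (h : ‖χ p‖ = 1) : Complex.exp (Complex.I * (phb52 χ p : ℂ)) = -χ p := by
  unfold phb52
  have h1 := Complex.norm_mul_exp_arg_mul_I (-χ p)
  rw [norm_neg, h] at h1
  rw [mul_comm]
  simpa using h1

lemma fp_tt52 {χ : ℕ → ℂ} {p : ℕ} (h : ‖χ p‖ = 1) (T1 T2 : Finset ℕ) :
    fp (tt (phb52 χ) T2) T1 p = -χ p * ((sg T1 p : ℂ) * (if p ∈ T2 then Complex.I else 1)) := by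
  have h1 : Complex.exp (Complex.I * ((tt (phb52 χ) T2 p : ℝ) : ℂ)) = -χ p * (if p ∈ T2 then Complex.I else 1) := by
    unfold tt
    rw [Complex.ofReal_add, mul_add, Complex.exp_add, exp_phb52 h]
    congr 1
    split_ifs with hp
    · push_cast
      rw [mul_comm, Complex.exp_pi_div_two_mul_I]
    · simp
  unfold fp
  rw [h1]
  ring

theorem mod_M : StmtMOD fM muc := by
  intro χ N h1 hm hN
  refine ⟨phb52 χ, fun T1 T2 n hn hnN => ?_⟩
  have hn0 : n ≠ 0 := by omega
  unfold fM
  split_ifs with hs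
  · have hmu : muc n = ∏ p ∈ n.primeFactors, (-1 : ℂ) := by
      unfold muc
      rw [ArithmeticFunction.moebius_apply_of_squarefree hs]
      push_cast
      rw [neg_one_pow_card]
      exact Finset.prod_congr rfl fun p hp => by rw [fact_one hs hp, pow_one]
    unfold gt
    rw [if_neg hn0, hmu, mul_prod52 h1 hm hn0, ← Finset.prod_mul_distrib, ← Finset.prod_mul_distrib]
    refine Finset.prod_congr rfl fun p hp => ?_
    have hpp := Nat.prime_of_mem_primeFactors hp
    rw [fact_one hs hp, fp_tt52 (hN p hpp.one_lt.le ((Nat.le_of_dvd (by omega) (Nat.dvd_of_mem_primeFactors hp)).trans hnN)),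
      pow_one, pow_one]
    ring
  · have hmu : muc n = 0 := by
      unfold muc
      rw [ArithmeticFunction.moebius_eq_zero_of_not_squarefree hs]
      simp
    rw [hmu, zero_mul]

theorem mod_L : StmtMOD fL lac := by
  intro χ N h1 hm hN
  refine ⟨phb52 χ, fun T1 T2 n hn hnN => ?_⟩
  have hn0 : n ≠ 0 := by omega
  unfold fL lac gt
  rw [if_neg hn0, if_neg hn0, if_neg hn0, neg_one_pow_card, mul_prod52 h1 hm hn0, ← Finset.prod_mul_distrib, ← Finset.prod_mul_distrib]
  refine Finset.prod_congr rfl fun p hp => ?_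
  have hpp := Nat.prime_of_mem_primeFactors hp
  rw [fp_tt52 (hN p hpp.one_lt.le ((Nat.le_of_dvd (by omega) (Nat.dvd_of_mem_primeFactors hp)).trans hnN)), ← mul_pow, ← mul_pow]
  congr 1
  ring

end Pool.Agent.DR
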