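import Pool.Agent.Helper96.DR.Lin
import Pool.Agent.Helper66.LW.W

/-!
# Project DR, block TR: from the transfer for one twist, the model at the level of the smoothed sums, and the base points
-/

set_option autoImplicit false

namespace Pool.Agent.DR

open Finset MeasureTheory Filter Topology Pool.Agent.Helper5.RM Pool.Agent.Helper96.AF Pool.Agent.Helper66.LW Pool.Agent.IT

private theorem av_const_le52 {S : Finset ℕ} {F : Finset ℕ → ℝ} {c : ℝ} (h : ∀ T ⊆ S, c ≤ F T) : c ≤ av S F := by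
  rw [← av_const S c]
  exact av_mono h

/-- averages of probabilities -/
private theorem av_real52 {Ω : Type} [MeasurableSpace Ω] {P : Measure Ω} [IsProbabilityMeasure P] (S : Finset ℕ)
    (B : Finset ℕ → Finset ℕ → Set Ω) (hB : ∀ T1 T2, MeasurableSet (B T1 T2)) {η : ℝ}
    (h : ∀ ω, av S (fun T2 => pr S (fun T1 => ω ∈ B T1 T2)) ≤ η) :
    av S (fun T2 => av S (fun T1 => P.real (B T1 T2))) ≤ η := by
  classical
  have hi : ∀ T1 T2, Integrable (fun ω => if ω ∈ B T1 T2 then (1 : ℝ) else 0) P := by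
    intro T1 T2
    have : (fun ω => if ω ∈ B T1 T2 then (1 : ℝ) else 0) = (B T1 T2).indicator (fun _ => (1 : ℝ)) := by
      funext ω
      rw [Set.indicator_apply]
    rw [this]
    exact (integrable_const 1).indicator (hB T1 T2)
  have h1 : ∀ T1 T2, P.real (B T1 T2) = ∫ ω, (if ω ∈ B T1 T2 then (1 : ℝ) else 0) ∂P := by
    intro T1 T2
    have : (fun ω => if ω ∈ B T1 T2 then (1 : ℝ) else 0) = (B T1 T2).indicator (fun _ => (1 : ℝ)) := by
      funext ω
      rw [Set.indicator_apply]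
    rw [this, integral_indicator (hB T1 T2), setIntegral_const, smul_eq_mul, mul_one]
  have h2 : av S (fun T2 => av S (fun T1 => P.real (B T1 T2))) =
      ∫ ω, av S (fun T2 => av S (fun T1 => if ω ∈ B T1 T2 then (1 : ℝ) else 0)) ∂P := by
    unfold av
    rw [integral_div, integral_finsetSum]
    · congr 1
      refine Finset.sum_congr rfl fun T2 _ => ?_
      beta_reduce
      rw [integral_div, integral_finsetSum]
      · congr 1
        exact Finset.sum_congr rfl fun T1 _ => h1 T1 T2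
      · exact fun T1 _ => hi T1 T2
    · exact fun T2 _ => (integrable_finsetSum _ fun T1 _ => hi T1 T2).div_const _
  rw [h2]
  have h3 : Integrable (fun ω => av S (fun T2 => av S (fun T1 => if ω ∈ B T1 T2 then (1 : ℝ) else 0))) P := by
    unfold av
    exact (integrable_finsetSum _ fun T2 _ => (integrable_finsetSum _ fun T1 _ => hi T1 T2).div_const _).div_const _
  calc _ ≤ ∫ _, η ∂P := by
        refine integral_mono h3 (integrable_const _) fun ω => ?_
        refine le_trans (le_of_eq ?_) (h ω)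
        unfold pr
        refine av_congr fun T2 _ => av_congr fun T1 _ => ?_
        congr
    _ = η := by simp

/-- block TR -/
theorem tR52 {f : (ℕ → ℝ) → Finset ℕ → ℕ → ℂ} {a α : ℕ → ℂ} (hT : StmtT0 a α) (hG : StmtGS f) (hM : StmtMOD f a) : StmtTR a := by
  intro δ η hδ hη
  obtain ⟨K⟩ := ker_nonempty
  obtain ⟨C, hC, r1, h1⟩ := hT K (η / 2) (by positivity)
  obtain ⟨r2, h2⟩ := hG K (min δ (1 / 4)) (η / 2) (C + 3) (by positivity) (by positivity) (by positivity)
  refine ⟨r1 + r2 + 1, fun r hr Ω _ P χ hF => ?_⟩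
  have hr1 : (1 : ℝ) ≤ r := by exact_mod_cast (show 1 ≤ r by omega)
  have := hF.prob
  set S := PP (Y (r + 1)) with hS
  set lam : ℝ := (r : ℝ) ^ (1 / 4 - δ) with hlam
  have hlam0 : 0 ≤ lam := by positivity
  have hlam1 : C * lam + 3 ≤ (C + 3) * (r : ℝ) ^ (1 / 4 - min δ (1 / 4)) := by
    have e1 : lam ≤ (r : ℝ) ^ (1 / 4 - min δ (1 / 4)) :=
      Real.rpow_le_rpow_of_exponent_le hr1 (by linarith [min_le_left δ (1 / 4)])
    have e2 : 1 ≤ (r : ℝ) ^ (1 / 4 - min δ (1 / 4)) := Real.one_le_rpow hr1 (by linarith [min_le_right δ (1 / 4)])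
    nlinarith
  let B : Finset ℕ → Finset ℕ → Set Ω := fun T1 T2 =>
    {ω | ∀ i : ℕ, (i : ℝ) ≤ 1 / sr r → ((1 : ℂ) * SS K r (fun n => a n * (χ ω n * gt T1 T2 n)) i).re ≤ C * lam + 3}
  have hB : ∀ T1 T2, MeasurableSet (B T1 T2) := by
    intro T1 T2
    have : B T1 T2 = ⋂ i : ℕ, {ω | (i : ℝ) ≤ 1 / sr r → ((1 : ℂ) * SS K r (fun n => a n * (χ ω n * gt T1 T2 n)) i).re ≤ C * lam + 3} := by
      ext ω
      simp [B]
    rw [this]
    refine MeasurableSet.iInter fun i => ?_
    by_cases hi : (i : ℝ) ≤ 1 / sr r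
    · have e : {ω | (i : ℝ) ≤ 1 / sr r → ((1 : ℂ) * SS K r (fun n => a n * (χ ω n * gt T1 T2 n)) i).re ≤ C * lam + 3} =
          {ω | ((1 : ℂ) * SS K r (fun n => a n * (χ ω n * gt T1 T2 n)) i).re ≤ C * lam + 3} := by
        ext ω
        exact ⟨fun h => h hi, fun h _ => h⟩
      rw [e]
      refine measurableSet_le ?_ measurable_const
      refine Complex.measurable_re.comp ?_
      refine Measurable.const_mul ?_ _
      exact Pool.Agent.Helper96.DR.SS_meas K r i fun n => ((hF.meas n).mul_const _).const_mul _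
    · have e : {ω | (i : ℝ) ≤ 1 / sr r → ((1 : ℂ) * SS K r (fun n => a n * (χ ω n * gt T1 T2 n)) i).re ≤ C * lam + 3} = Set.univ := by
        ext ω
        exact ⟨fun _ => Set.mem_univ _, fun _ h => absurd h hi⟩
      rw [e]
      exact MeasurableSet.univ
  have hYZ : Y (r + 1) ≤ Y (150 * r) := Y_mono (by omega)
  have hav : av S (fun T2 => av S (fun T1 => P.real (B T1 T2))) ≤ η / 2 := by
    refine av_real52 S B hB fun ω => ?_
    obtain ⟨ph, hph⟩ := hM (χ ω) (Y (r + 1)) (hF.one ω) (hF.mul ω) (fun n hn hn' => hF.norm ω n hn (hn'.trans hYZ))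
    refine le_trans (av_mono fun T2 _ => pr_mono fun T1 _ hω => ?_) (h2 r (by omega) ph)
    intro i hi
    have e1 := hω i hi
    rw [one_mul] at e1
    rw [Pool.Agent.Helper96.DR.SS_congr (g := fun n => a n * (χ ω n * gt T1 T2 n)) fun n hn hn' => hph T1 T2 n hn hn']
    exact e1.trans hlam1
  have hE : ∀ T1 T2, P.real {ω | ∀ n : ℕ, 1 ≤ n → n ≤ Y (r + 1) → (Hc (fun n => a n * χ ω n) n).re ≤ lam * Real.sqrt n} ≤
      P.real (B T1 T2) + η / 2 := by
    intro T1 T2
    have e1 := h1 r (by omega) Ω P χ Set.univ hF T1 T2 (Set.mem_univ _) 1 (by simp) lam hlam0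
    simp only [one_mul] at e1
    simpa [B] using e1
  have h3 : P.real {ω | ∀ n : ℕ, 1 ≤ n → n ≤ Y (r + 1) → (Hc (fun n => a n * χ ω n) n).re ≤ lam * Real.sqrt n} ≤
      av S (fun T2 => av S (fun T1 => P.real (B T1 T2) + η / 2)) :=
    av_const_le52 fun T2 _ => av_const_le52 fun T1 _ => hE T1 T2
  have h4 : av S (fun T2 => av S (fun T1 => P.real (B T1 T2) + η / 2)) = av S (fun T2 => av S (fun T1 => P.real (B T1 T2))) + η / 2 := by
    have e1 : ∀ T2, av S (fun T1 => P.real (B T1 T2) + η / 2) = av S (fun T1 => P.real (B T1 T2)) + η / 2 := by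
      intro T2
      rw [av_add, av_const]
    rw [av_congr fun T2 _ => e1 T2, av_add, av_const]
  rw [h4] at h3
  linarith

end Pool.Agent.DR
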